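import Mathlib

/-!
# Definitions for the problem on mapping index versus cross-index

`G` is a group (finite in all applications).
-/

universe u

namespace Pool.Agent.Helper73_CrossIndex

/-- A finite `G`-simplicial complex: a finite vertex set `V`, an abstract simplicial complex `K`
with vertex set `V` (the faces are non-empty finite sets of vertices, closed under passing to
non-empty subsets, and every vertex is a face) and an action of `G` on `V` that maps faces to
faces. -/
structure GComplex (G : Type u) [Group G] where
  /-- the vertex set -/
  V : Type u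
  /-- the vertex set is finite -/
  [fintypeV : Fintype V]
  /-- the action of `G` on the vertices -/
  [mulActionV : MulAction G V]
  /-- the simplicial complex -/
  K : AbstractSimplicialComplex V
  /-- `G` acts by simplicial automorphisms -/
  smul_mem : ∀ (g : G) {s : Finset V}, s ∈ K.faces →
    s.map (MulAction.toPerm g).toEmbedding ∈ K.faces

attribute [instance] GComplex.fintypeV GComplex.mulActionV

variable {G : Type u} [Group G]

/-- The geometric realisation of a finite `G`-simplicial complex: all systems of barycentric
coordinates `V → ℝ` (non-negative, with sum `1`) whose support is contained in a face. -/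
@[ext]
structure GComplex.Realization (X : GComplex G) : Type u where
  /-- the barycentric coordinates -/
  coord : X.V → ℝ
  nonneg : ∀ v, 0 ≤ coord v
  sum_eq_one : ∑ v, coord v = 1
  support_subset : ∃ s ∈ X.K.faces, ∀ v, coord v ≠ 0 → v ∈ s

/-- The topology of the realisation: the subspace topology of `V → ℝ`. -/
instance (X : GComplex G) : TopologicalSpace X.Realization :=
  TopologicalSpace.induced GComplex.Realization.coord inferInstance

/-- The induced action of `G` on the realisation: `(g • x)` has coordinate `x (g⁻¹ • v)` at `v`. -/
instance (X : GComplex G) : MulAction G X.Realization where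
  smul g x :=
    { coord := fun v => x.coord (g⁻¹ • v)
      nonneg := fun v => x.nonneg _
      sum_eq_one := (Equiv.sum_comp (MulAction.toPerm (g⁻¹ : G)) x.coord).trans x.sum_eq_one
      support_subset := by
        obtain ⟨s, hs, hx⟩ := x.support_subset
        refine ⟨_, X.smul_mem g hs, fun v hv => ?_⟩
        rw [Finset.mem_map]
        exact ⟨g⁻¹ • v, hx _ hv, by simp⟩ }
  one_smul x := GComplex.Realization.ext (funext fun v => by
    change x.coord ((1 : G)⁻¹ • v) = x.coord v
    simp)
  mul_smul g h x := GComplex.Realization.ext (funext fun v => by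
    change x.coord ((g * h)⁻¹ • v) = x.coord (h⁻¹ • g⁻¹ • v)
    simp [mul_smul])

/-- A `G`-simplicial complex is free if the action on its geometric realisation is free. -/
def GComplex.IsFree (X : GComplex G) : Prop :=
  ∀ (g : G) (x : X.Realization), g • x = x → g = 1

/-- The face poset of a `G`-simplicial complex. -/
@[ext]
structure GComplex.FacePoset (X : GComplex G) : Type u where
  /-- the face -/
  face : Finset X.V
  mem : face ∈ X.K.faces

/-- The faces are ordered by inclusion. -/
instance (X : GComplex G) : PartialOrder X.FacePoset :=
  PartialOrder.lift GComplex.FacePoset.face fun _ _ h => GComplex.FacePoset.ext h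

/-- The induced action of `G` on the faces. -/
instance (X : GComplex G) : MulAction G X.FacePoset where
  smul g s := ⟨s.face.map (MulAction.toPerm g).toEmbedding, X.smul_mem g s.mem⟩
  one_smul s := GComplex.FacePoset.ext (by
    change s.face.map (MulAction.toPerm (1 : G)).toEmbedding = s.face
    ext v; simp)
  mul_smul g h s := GComplex.FacePoset.ext (by
    change s.face.map (MulAction.toPerm (g * h)).toEmbedding =
      (s.face.map (MulAction.toPerm h).toEmbedding).map (MulAction.toPerm g).toEmbedding
    ext v; simp [mul_smul])

/-- The set `G × {0, …, k}`, the vertex set of `E_k G`. -/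
@[ext]
structure EVertex (G : Type u) (k : ℕ) : Type u where
  /-- the group element -/
  elt : G
  /-- the number of the join factor -/
  lev : Fin (k + 1)

/-- `EVertex G k` is `G × {0, …, k}`. -/
def EVertex.equiv (G : Type u) (k : ℕ) : EVertex G k ≃ G × Fin (k + 1) where
  toFun v := (v.elt, v.lev)
  invFun p := ⟨p.1, p.2⟩
  left_inv _ := rfl
  right_inv _ := rfl

instance [Fintype G] (k : ℕ) : Fintype (EVertex G k) :=
  Fintype.ofEquiv _ (EVertex.equiv G k).symm

/-- `G` acts on `G × {0, …, k}` by left multiplication on the first factor. -/
instance (k : ℕ) : MulAction G (EVertex G k) where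
  smul g v := ⟨g * v.elt, v.lev⟩
  one_smul v := EVertex.ext (one_mul v.elt) rfl
  mul_smul g h v := EVertex.ext (mul_assoc g h v.elt) rfl

/-- The `(k+1)`-fold join `E_k G = G * ⋯ * G` of the discrete set `G` as a `G`-simplicial complex:
the vertices are the pairs `(g, i)` with `0 ≤ i ≤ k`, and a non-empty set of vertices is a face iff
it contains at most one vertex `(g, i)` for each `i`. -/
def E (G : Type u) [Group G] [Fintype G] (k : ℕ) : GComplex G where
  V := EVertex G k
  K :=
    { faces := {s | s.Nonempty ∧ ∀ v ∈ s, ∀ w ∈ s, v.lev = w.lev → v = w}
      isRelLowerSet_faces := fun s hs => ⟨hs.1, fun t hts ht =>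
        ⟨ht, fun v hv w hw => hs.2 v (hts hv) w (hts hw)⟩⟩
      singleton_mem := fun v => ⟨Finset.singleton_nonempty v, fun a ha b hb _ => by
        rw [Finset.mem_singleton] at ha hb; rw [ha, hb]⟩ }
  smul_mem := by
    rintro g s ⟨hs, h⟩
    refine ⟨by simpa using hs, fun v hv w hw hvw => ?_⟩
    rw [Finset.mem_map] at hv hw
    obtain ⟨v', hv', rfl⟩ := hv
    obtain ⟨w', hw', rfl⟩ := hw
    rw [h v' hv' w' hw' hvw]

/-- The underlying set `G × {0, …, k}` of the poset `Q_k G`. -/
@[ext]
structure Q (G : Type u) (k : ℕ) : Type u where
  /-- the group element -/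
  elt : G
  /-- the level -/
  lev : Fin (k + 1)

/-- The order of `Q_k G`: `(g, i) < (h, j)` iff `i < j`. -/
instance (k : ℕ) : PartialOrder (Q G k) where
  le a b := a = b ∨ a.lev < b.lev
  le_refl a := Or.inl rfl
  le_trans a b c hab hbc := by
    rcases hab with rfl | hab
    · exact hbc
    · rcases hbc with rfl | hbc
      · exact Or.inr hab
      · exact Or.inr (lt_trans hab hbc)
  le_antisymm a b hab hba := by
    rcases hab with rfl | hab
    · rfl
    · rcases hba with h | hba
      · exact h.symm
      · exact absurd hab (lt_asymm hba)

/-- The action of `G` on `Q_k G`: `g • (h, i) = (g h, i)`. -/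
instance (k : ℕ) : MulAction G (Q G k) where
  smul g v := ⟨g * v.elt, v.lev⟩
  one_smul v := Q.ext (one_mul v.elt) rfl
  mul_smul g h v := Q.ext (mul_assoc g h v.elt) rfl

/-- `m` is the mapping index of the `G`-space `X`: the least `k` for which there is a continuous
`G`-equivariant map from `X` to (the realisation of) `E_k G`. -/
def IsMappingIndex (G : Type u) [Group G] [Fintype G] (X : Type u) [TopologicalSpace X]
    [MulAction G X] (m : ℕ) : Prop :=
  IsLeast {k : ℕ | ∃ f : X → (E G k).Realization,
    Continuous f ∧ ∀ (g : G) (x : X), f (g • x) = g • f x} m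

/-- `n` is the cross-index of the `G`-poset `P`: the least `k` for which there is an
order-preserving `G`-equivariant map from `P` to `Q_k G`. -/
def IsCrossIndex (G : Type u) [Group G] (P : Type u) [PartialOrder P] [MulAction G P]
    (n : ℕ) : Prop :=
  IsLeast {k : ℕ | ∃ f : P → Q G k, Monotone f ∧ ∀ (g : G) (p : P), f (g • p) = g • f p} n

end Pool.Agent.Helper73_CrossIndex
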