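import Pool.Agent.Helper73_CrossIndex.Subdiv
import Pool.Agent.Helper73_CrossIndex.Defs

/-!
# The Borsuk–Ulam–Dold theorem for `E_n G`
-/

universe u v

namespace Pool.Agent.Helper73_CrossIndex

open Finsupp (single mapDomain)

/-! ## Equivariance of the chain level constructions -/

section Equivariance

variable {G : Type u} [Group G]

lemma wd_sm : (n : ℕ) → (i : ℕ) → (g h : G) → (σ : Fc G n) →
    wd n i (g * h) (sm n g σ) = mapDomain (sm n g) (wd n i h σ)
  | 0, _, _, _, _ => by simp [wd]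
  | n + 1, 0, g, h, .cons none t => by
    simp only [sm, Option.map_none, wd, Finsupp.mapDomain_single, Option.map_some]
  | n + 1, 0, g, h, .cons (some k) t => by
    simp only [sm, Option.map_some, wd, Finsupp.mapDomain_zero]
  | n + 1, i + 1, g, h, .cons none t => by
    simp only [sm, Option.map_none, wd, wd_sm n i g h t]
    simp only [pc, Finsupp.lmapDomain_apply, ← Finsupp.mapDomain_comp]
    rfl
  | n + 1, i + 1, g, h, .cons (some k) t => by
    simp only [sm, Option.map_some, wd, wd_sm n i g h t]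
    rw [← Finsupp.lmapDomain_apply (R := ℤ) (M := ℤ) (f := sm (n + 1) g), map_neg]
    simp only [pc, Finsupp.lmapDomain_apply, ← Finsupp.mapDomain_comp]
    rfl

lemma wdL_mapDomain (n i : ℕ) (g h : G) (c : Fc G n →₀ ℤ) :
    wdL n i (g * h) (mapDomain (sm n g) c) = mapDomain (sm n g) (wdL n i h c) := by
  induction c using Finsupp.induction_linear with
  | zero => simp
  | add c₁ c₂ h₁ h₂ => simp only [Finsupp.mapDomain_add, map_add, h₁, h₂]
  | single t c =>
    simp only [Finsupp.mapDomain_single, wdL_single, wd_sm]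
    rw [Finsupp.mapDomain_smul]

lemma sm_emp (g : G) : (n : ℕ) → sm n g (emp G n) = emp G n
  | 0 => rfl
  | n + 1 => by simp only [emp, sm, Option.map_none, sm_emp g n]

lemma alt_map (n : ℕ) (g : G) (l : List (ℕ × G)) :
    alt n (l.map fun v => (v.1, g * v.2)) = mapDomain (sm n g) (alt n l) := by
  induction l with
  | nil => simp only [List.map_nil, alt, Finsupp.mapDomain_single, sm_emp]
  | cons v l ih => simp only [List.map_cons, alt, ih, wdL_mapDomain]

lemma altL_chMap (n : ℕ) (g : G) (c : Ch (ℕ × G)) :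
    altL n (chMap (fun v => (v.1, g * v.2)) c) = mapDomain (sm n g) (altL n c) := by
  induction c using Finsupp.induction_linear with
  | zero => simp
  | add c₁ c₂ h₁ h₂ => simp only [Finsupp.mapDomain_add, map_add, h₁, h₂]
  | single l c =>
    simp only [chMap_single, altL_single, alt_map, Finsupp.mapDomain_smul]

lemma verts_sm {P : Type v} (A : P → P) : (n : ℕ) → (p : ℕ → G → P) → (g : G) →
    (∀ i h, i < n → p i (g * h) = A (p i h)) → (σ : Fc G n) →
    verts n p (sm n g σ) = (verts n p σ).map A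
  | 0, _, _, _, _ => by simp [verts]
  | n + 1, p, g, hp, .cons none t => by
    simp only [sm, Option.map_none, verts]
    exact verts_sm A n _ g (fun i h hi => hp (i + 1) h (Nat.succ_lt_succ hi)) t
  | n + 1, p, g, hp, .cons (some k) t => by
    simp only [sm, Option.map_some, verts, List.map_cons]
    rw [verts_sm A n _ g (fun i h hi => hp (i + 1) h (Nat.succ_lt_succ hi)) t,
      hp 0 k (Nat.succ_pos n)]

omit [Group G] in
lemma mem_verts {P : Type v} : (n : ℕ) → (p : ℕ → G → P) → (σ : Fc G n) → (x : P) →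
    x ∈ verts n p σ → ∃ i g, i < n ∧ ent n i σ = some g ∧ x = p i g
  | 0, _, _, _, h => by simp [verts] at h
  | n + 1, p, .cons none t, x, h => by
    simp only [verts] at h
    obtain ⟨i, g, hi, h1, h2⟩ := mem_verts n _ t x h
    exact ⟨i + 1, g, Nat.succ_lt_succ hi, h1, h2⟩
  | n + 1, p, .cons (some k) t, x, h => by
    simp only [verts, List.mem_cons] at h
    rcases h with h | h
    · exact ⟨0, k, Nat.succ_pos n, rfl, h⟩
    · obtain ⟨i, g, hi, h1, h2⟩ := mem_verts n _ t x h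
      exact ⟨i + 1, g, Nat.succ_lt_succ hi, h1, h2⟩

omit [Group G] in
lemma length_verts {P : Type v} : (n : ℕ) → (p : ℕ → G → P) → (σ : Fc G n) →
    (verts n p σ).length ≤ n
  | 0, _, _ => by simp [verts]
  | n + 1, p, .cons none t => by
    simp only [verts]
    exact (length_verts n _ t).trans (Nat.le_succ n)
  | n + 1, p, .cons (some k) t => by
    simp only [verts, List.length_cons]
    exact Nat.succ_le_succ (length_verts n _ t)

omit [Group G] in
lemma verts_emp {P : Type v} : (n : ℕ) → (p : ℕ → G → P) → verts n p (emp G n) = []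
  | 0, _ => by simp [verts]
  | n + 1, p => by
    simp only [emp, verts]
    exact verts_emp n _

end Equivariance

/-! ## Realisations -/

section Realization

variable {G : Type u} [Group G]

/-- the underlying set of the realisation -/
def RSet (X : GComplex G) : Set (X.V → ℝ) :=
  {x | (∀ v, 0 ≤ x v) ∧ ∑ v, x v = 1 ∧ ∃ s ∈ X.K.faces, ∀ v, x v ≠ 0 → v ∈ s}

/-- a point of the realisation from its coordinates -/
def mkR (X : GComplex G) (x : RSet X) : X.Realization := ⟨x.1, x.2.1, x.2.2.1, x.2.2.2⟩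

lemma coord_mem {X : GComplex G} (x : X.Realization) : x.coord ∈ RSet X :=
  ⟨x.nonneg, x.sum_eq_one, x.support_subset⟩

lemma continuous_mkR (X : GComplex G) : Continuous (mkR X) :=
  continuous_induced_rng.mpr continuous_subtype_val

lemma continuous_coord (X : GComplex G) :
    Continuous (GComplex.Realization.coord : X.Realization → _) :=
  continuous_induced_dom

lemma isCompact_RSet (X : GComplex G) : IsCompact (RSet X) := by
  have hclosed : IsClosed (RSet X) := by
    have : RSet X = ⋃ s ∈ X.K.faces,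
        ({x | (∀ v, 0 ≤ x v) ∧ ∑ v, x v = 1 ∧ ∀ v, v ∉ s → x v = 0} : Set (X.V → ℝ)) := by
      ext x
      simp only [RSet, Set.mem_ofPred_eq, Set.mem_iUnion, exists_prop]
      constructor
      · rintro ⟨h1, h2, s, hs, h3⟩
        refine ⟨s, hs, h1, h2, fun v hv => ?_⟩
        by_contra h
        exact hv (h3 v h)
      · rintro ⟨s, hs, h1, h2, h3⟩
        refine ⟨h1, h2, s, hs, fun v hv => ?_⟩
        by_contra h
        exact hv (h3 v h)
    rw [this]
    refine Set.Finite.isClosed_biUnion (Set.toFinite _) fun s _ => ?_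
    refine IsClosed.inter ?_ (IsClosed.inter ?_ ?_)
    · have : {x : X.V → ℝ | ∀ v, 0 ≤ x v} = ⋂ v, {x | 0 ≤ x v} := by ext; simp
      change IsClosed {x : X.V → ℝ | ∀ v, 0 ≤ x v}
      rw [this]
      exact isClosed_iInter fun v => isClosed_le continuous_const (continuous_apply v)
    · change IsClosed {x : X.V → ℝ | ∑ v, x v = 1}
      exact isClosed_eq (continuous_finsetSum _ fun v _ => continuous_apply v) continuous_const
    · change IsClosed {x : X.V → ℝ | ∀ v, v ∉ s → x v = 0}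
      have : {x : X.V → ℝ | ∀ v, v ∉ s → x v = 0} = ⋂ v, ⋂ (_ : v ∉ s), {x | x v = 0} := by
        ext; simp
      rw [this]
      exact isClosed_iInter fun v => isClosed_iInter fun _ =>
        isClosed_eq (continuous_apply v) continuous_const
  refine IsCompact.of_isClosed_subset (isCompact_Icc (a := (0 : X.V → ℝ)) (b := 1)) hclosed ?_
  rintro x ⟨h1, h2, -⟩
  refine ⟨fun v => h1 v, fun v => ?_⟩
  rw [Pi.one_apply, ← h2]
  exact Finset.single_le_sum (fun w _ => h1 w) (Finset.mem_univ v)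

lemma smul_coord (X : GComplex G) (g : G) (x : X.Realization) (v : X.V) :
    (g • x).coord v = x.coord (g⁻¹ • v) := rfl

variable [Fintype G]

lemma label_exists (n : ℕ) (z : (E G n).Realization) :
    ∃ i : ℕ, ∃ h : i < n + 1, ∃ g : G, 1 / ((n : ℝ) + 1) ≤ z.coord (⟨g, ⟨i, h⟩⟩ : EVertex G n) := by
  classical
  by_contra hcon
  push Not at hcon
  obtain ⟨x, h1, h2, s, hs, h3⟩ := z
  simp only at hcon
  have hlt : ∀ v : EVertex G n, x v < 1 / ((n : ℝ) + 1) := fun v => hcon v.2.1 v.2.2 v.1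
  have hcard : s.card ≤ n + 1 := by
    have := Finset.card_le_card_of_injOn (s := s) (t := (Finset.univ : Finset (Fin (n + 1))))
      (fun v : EVertex G n => v.lev) (fun v _ => Finset.mem_univ _)
      (fun v hv w hw hvw => hs.2 v hv w hw hvw)
    simpa using this
  have hsum : ∑ v ∈ s, x v = 1 := by
    rw [← h2]
    refine Finset.sum_subset (Finset.subset_univ s) fun v _ hv => ?_
    by_contra h
    exact hv (h3 v h)
  have hlt2 : ∑ v ∈ s, x v < ∑ v ∈ s, 1 / ((n : ℝ) + 1) :=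
    Finset.sum_lt_sum_of_nonempty hs.1 fun v _ => hlt v
  rw [hsum, Finset.sum_const, nsmul_eq_mul] at hlt2
  have : (s.card : ℝ) * (1 / ((n : ℝ) + 1)) ≤ 1 := by
    rw [mul_one_div, div_le_one (by positivity)]
    exact_mod_cast hcard
  linarith

/-- the place of the label -/
noncomputable def idx (n : ℕ) (z : (E G n).Realization) : ℕ :=
  sInf {i : ℕ | ∃ h : i < n + 1, ∃ g : G,
    1 / ((n : ℝ) + 1) ≤ z.coord (⟨g, ⟨i, h⟩⟩ : EVertex G n)}

lemma idx_spec (n : ℕ) (z : (E G n).Realization) :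
    ∃ h : idx n z < n + 1, ∃ g : G,
      1 / ((n : ℝ) + 1) ≤ z.coord (⟨g, ⟨idx n z, h⟩⟩ : EVertex G n) :=
  Nat.sInf_mem (s := {i : ℕ | ∃ h : i < n + 1, ∃ g : G,
    1 / ((n : ℝ) + 1) ≤ z.coord (⟨g, ⟨i, h⟩⟩ : EVertex G n)}) (label_exists n z)

/-- the group element of the label -/
noncomputable def grp (n : ℕ) (z : (E G n).Realization) : G :=
  Classical.choose (idx_spec n z).choose_spec

lemma grp_spec (n : ℕ) (z : (E G n).Realization) (h : idx n z < n + 1) :
    1 / ((n : ℝ) + 1) ≤ z.coord (⟨grp n z, ⟨idx n z, h⟩⟩ : EVertex G n) :=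
  Classical.choose_spec (idx_spec n z).choose_spec

lemma grp_unique {n : ℕ} (z : (E G n).Realization) {i : Fin (n + 1)} {g h : G}
    (hg : z.coord (⟨g, i⟩ : EVertex G n) ≠ 0) (hh : z.coord (⟨h, i⟩ : EVertex G n) ≠ 0) :
    g = h := by
  obtain ⟨x, h1, h2, s, hs, h3⟩ := z
  have := hs.2 _ (h3 _ hg) _ (h3 _ hh) rfl
  exact congrArg EVertex.elt this

lemma smul_coord_E (n : ℕ) (g : G) (z : (E G n).Realization) (h : G) (i : Fin (n + 1)) :
    (g • z).coord (⟨g * h, i⟩ : EVertex G n) = z.coord (⟨h, i⟩ : EVertex G n) := by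
  change z.coord (g⁻¹ • (⟨g * h, i⟩ : EVertex G n)) = _
  congr 1
  exact EVertex.ext (inv_mul_cancel_left g h) rfl

lemma idx_smul (n : ℕ) (g : G) (z : (E G n).Realization) : idx n (g • z) = idx n z := by
  unfold idx
  congr 1
  ext i
  constructor
  · rintro ⟨h, k, hk⟩
    refine ⟨h, g⁻¹ * k, ?_⟩
    rwa [← smul_coord_E n g z, mul_inv_cancel_left]
  · rintro ⟨h, k, hk⟩
    refine ⟨h, g * k, ?_⟩
    rwa [smul_coord_E n g z]

lemma grp_smul (n : ℕ) (g : G) (z : (E G n).Realization) : grp n (g • z) = g * grp n z := by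
  obtain ⟨h, -⟩ := idx_spec n z
  have hpos : (0 : ℝ) < 1 / ((n : ℝ) + 1) := by positivity
  have h1 := grp_spec n (g • z) (by rw [idx_smul]; exact h)
  have h2 := grp_spec n z h
  refine grp_unique (g • z) (i := ⟨idx n z, h⟩) ?_ ?_
  · have : (⟨idx n (g • z), by rw [idx_smul]; exact h⟩ : Fin (n + 1)) = ⟨idx n z, h⟩ :=
      Fin.ext (idx_smul n g z)
    rw [← this]
    exact (hpos.trans_le h1).ne'
  · rw [smul_coord_E]
    exact (hpos.trans_le h2).ne'

end Realization

/-! ## The theorem -/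

section Main

variable {G : Type u}

/-- points of `ℝ^V` for the vertices of `E_n G` -/
noncomputable def pt (n : ℕ) (i : ℕ) (g : G) : EVertex G n → ℝ := by
  classical
  exact if h : i < n + 1 then Pi.single (⟨g, ⟨i, h⟩⟩ : EVertex G n) 1 else 0

variable [Fintype G]

/-- The closed face of `σ`. -/
def CFace (n : ℕ) (σ : Fc G (n + 1)) : Set (EVertex G n → ℝ) :=
  {x | (∀ v, 0 ≤ x v) ∧ ∑ v, x v = 1 ∧ ∀ v, x v ≠ 0 → ent (n + 1) v.lev σ = some v.elt}

lemma convex_CFace (n : ℕ) (σ : Fc G (n + 1)) : Convex ℝ (CFace n σ) := by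
  rintro x ⟨hx1, hx2, hx3⟩ y ⟨hy1, hy2, hy3⟩ a b ha hb hab
  refine ⟨fun v => ?_, ?_, fun v hv => ?_⟩
  · simp only [Pi.add_apply, Pi.smul_apply, smul_eq_mul]
    exact add_nonneg (mul_nonneg ha (hx1 v)) (mul_nonneg hb (hy1 v))
  · simp only [Pi.add_apply, Pi.smul_apply, smul_eq_mul]
    rw [Finset.sum_add_distrib, ← Finset.mul_sum, ← Finset.mul_sum, hx2, hy2, mul_one, mul_one, hab]
  · by_contra h
    apply hv
    have h1 : x v = 0 := by
      by_contra h'
      exact h (hx3 v h')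
    have h2 : y v = 0 := by
      by_contra h'
      exact h (hy3 v h')
    simp [h1, h2]

lemma CFace_subset [Group G] (n : ℕ) (σ : Fc G (n + 1)) : CFace n σ ⊆ RSet (E G n) := by
  classical
  rintro x ⟨h1, h2, h3⟩
  set s : Finset (EVertex G n) :=
    Finset.univ.filter (fun v : EVertex G n => ent (n + 1) v.lev σ = some v.elt) with hs
  have hmem : ∀ v : EVertex G n, v ∈ s ↔ ent (n + 1) v.lev σ = some v.elt := by
    intro v; simp [hs]
  refine ⟨h1, h2, s, ⟨?_, ?_⟩, ?_⟩
  · by_contra hemp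
    have : ∑ v, x v = 0 := by
      refine Finset.sum_eq_zero fun v _ => ?_
      by_contra h
      exact hemp ⟨v, (hmem v).mpr (h3 v h)⟩
    rw [h2] at this
    exact one_ne_zero this
  · intro v hv w hw hvw
    have hv' := (hmem v).mp hv
    have hw' := (hmem w).mp hw
    rw [hvw] at hv'
    rw [hv'] at hw'
    exact EVertex.ext (Option.some.inj hw') hvw
  · intro v hv
    exact (hmem v).mpr (h3 v hv)

lemma pt_mem (n : ℕ) (σ : Fc G (n + 1)) {i : ℕ} {g : G} (hi : i < n + 1)
    (h : ent (n + 1) i σ = some g) : pt n i g ∈ CFace n σ := by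
  classical
  have e : pt n i g = Pi.single (⟨g, ⟨i, hi⟩⟩ : EVertex G n) 1 := by
    rw [pt, dif_pos hi]
  rw [e]
  refine ⟨fun v => ?_, ?_, fun v hv => ?_⟩
  · by_cases hv : v = ⟨g, ⟨i, hi⟩⟩
    · subst hv; simp
    · rw [Pi.single_eq_of_ne hv]
  · rw [Finset.sum_eq_single (⟨g, ⟨i, hi⟩⟩ : EVertex G n)]
    · exact Pi.single_eq_same _ _
    · intro v _ hv
      exact Pi.single_eq_of_ne hv _
    · intro hv; exact absurd (Finset.mem_univ _) hv
  · have : v = ⟨g, ⟨i, hi⟩⟩ := by
      by_contra hne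
      exact hv (Pi.single_eq_of_ne hne 1)
    subst this
    exact h

lemma CFace_dist {n : ℕ} {σ : Fc G (n + 1)} {x y : EVertex G n → ℝ} (hx : x ∈ CFace n σ)
    (hy : y ∈ CFace n σ) : dist x y ≤ 1 := by
  have hb : ∀ z ∈ CFace n σ, ∀ v, 0 ≤ z v ∧ z v ≤ 1 := by
    rintro z ⟨h1, h2, -⟩ v
    refine ⟨h1 v, ?_⟩
    rw [← h2]
    exact Finset.single_le_sum (fun w _ => h1 w) (Finset.mem_univ v)
  rw [dist_pi_le_iff zero_le_one]
  intro v
  rw [Real.dist_eq, abs_le]
  have := hb x hx v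
  have := hb y hy v
  constructor <;> linarith

/-- the action as a linear map -/
noncomputable def actL [Group G] (n : ℕ) (g : G) : (EVertex G n → ℝ) →ₗ[ℝ] (EVertex G n → ℝ) where
  toFun x v := x (g⁻¹ • v)
  map_add' _ _ := rfl
  map_smul' _ _ := rfl

omit [Fintype G] in
lemma actL_pt [Group G] (n : ℕ) (g h : G) (i : ℕ) : pt n i (g * h) = actL n g (pt n i h) := by
  classical
  unfold pt
  by_cases hi : i < n + 1
  · rw [dif_pos hi, dif_pos hi]
    funext v
    change _ = (Pi.single (⟨h, ⟨i, hi⟩⟩ : EVertex G n) (1 : ℝ) : EVertex G n → ℝ) (g⁻¹ • v)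
    by_cases hv : v = ⟨g * h, ⟨i, hi⟩⟩
    · subst hv
      have : (g⁻¹ • (⟨g * h, ⟨i, hi⟩⟩ : EVertex G n)) = ⟨h, ⟨i, hi⟩⟩ :=
        EVertex.ext (inv_mul_cancel_left g h) rfl
      rw [this, Pi.single_eq_same, Pi.single_eq_same]
    · rw [Pi.single_eq_of_ne hv, Pi.single_eq_of_ne]
      intro hcon
      apply hv
      rw [← smul_inv_smul g v, hcon]
      rfl
  · rw [dif_neg hi, dif_neg hi]
    rfl

variable [Group G]

lemma actL_mem {n : ℕ} (g : G) {x : EVertex G n → ℝ} (hx : x ∈ RSet (E G n)) :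
    actL n g x ∈ RSet (E G n) :=
  coord_mem (g • (mkR (E G n) ⟨x, hx⟩))

/-- **Borsuk–Ulam–Dold theorem** for the joins `E_n G`. -/
theorem no_equivariant_map [Nontrivial G] (n : ℕ)
    (f : (E G (n + 1)).Realization → (E G n).Realization) (hf : Continuous f)
    (hg : ∀ (g : G) x, f (g • x) = g • f x) : False := by
  classical
  have hpos : (0 : ℝ) < 1 / ((n : ℝ) + 1) := by positivity
  -- uniform continuity
  obtain ⟨δ, hδ, hunif⟩ : ∃ δ > 0, ∀ x y : RSet (E G (n + 1)),
      dist x.1 y.1 < δ →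
        dist (f (mkR _ x)).coord (f (mkR _ y)).coord < 1 / ((n : ℝ) + 1) := by
    have : CompactSpace (RSet (E G (n + 1))) :=
      isCompact_iff_compactSpace.mp (isCompact_RSet _)
    have hc : Continuous (fun x : RSet (E G (n + 1)) => (f (mkR _ x)).coord) :=
      (continuous_coord _).comp (hf.comp (continuous_mkR _))
    have hu := CompactSpace.uniformContinuous_of_continuous hc
    rw [Metric.uniformContinuous_iff] at hu
    obtain ⟨δ, hδ, h⟩ := hu _ hpos
    exact ⟨δ, hδ, fun x y hxy => h hxy⟩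
  -- number of subdivisions
  obtain ⟨r, hr⟩ : ∃ r : ℕ, (((n + 1 : ℕ) : ℝ) / ((n + 1 : ℕ) + 1)) ^ r < δ := by
    refine exists_pow_lt_of_lt_one hδ ?_
    rw [div_lt_one (by positivity)]
    linarith
  -- labels
  set L : (EVertex G (n + 1) → ℝ) → ℕ × G := fun x =>
    if hx : x ∈ RSet (E G (n + 1)) then (idx n (f (mkR _ ⟨x, hx⟩)), grp n (f (mkR _ ⟨x, hx⟩)))
    else (0, 1) with hL
  have hLx : ∀ (x : EVertex G (n + 1) → ℝ) (hx : x ∈ RSet (E G (n + 1))),
      L x = (idx n (f (mkR _ ⟨x, hx⟩)), grp n (f (mkR _ ⟨x, hx⟩))) := by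
    intro x hx
    simp only [hL]
    rw [dif_pos hx]
  -- small lists have compatible labels
  have hsmall : ∀ σ : Fc G (n + 2), AllL (SmallIn (n + 1)
      ((((n + 1 : ℕ) : ℝ) / ((n + 1 : ℕ) + 1)) ^ r * 1) (CFace (n + 1) σ))
      (sdI r (single (verts (n + 2) (pt (n + 1)) σ) 1)) := by
    intro σ
    refine small_sdI zero_le_one (convex_CFace _ _) r ⟨length_verts _ _ _, ?_, ?_⟩
    · intro x hx y hy
      obtain ⟨i, g, hi, h1, rfl⟩ := mem_verts _ _ _ _ hx
      obtain ⟨j, h, hj, h2, rfl⟩ := mem_verts _ _ _ _ hy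
      exact CFace_dist (pt_mem _ σ hi h1) (pt_mem _ σ hj h2)
    · intro x hx
      obtain ⟨i, g, hi, h1, rfl⟩ := mem_verts _ _ _ _ hx
      exact pt_mem _ σ hi h1
  have hcompat : ∀ σ : Fc G (n + 2), AllL (Compat (n + 1))
      (chMap L (sdI r (single (verts (n + 2) (pt (n + 1)) σ) 1))) := by
    intro σ
    refine AllL.mapDomain (hsmall σ) ?_
    rintro l ⟨-, h2, h3⟩
    have h3' : ∀ x ∈ l, x ∈ RSet (E G (n + 1)) := fun x hx => CFace_subset _ _ (h3 x hx)
    constructor
    · intro v hv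
      obtain ⟨x, hx, rfl⟩ := List.mem_map.mp hv
      rw [hLx x (h3' x hx)]
      exact (idx_spec n _).choose
    · intro v hv w hw hvw
      obtain ⟨x, hx, rfl⟩ := List.mem_map.mp hv
      obtain ⟨y, hy, rfl⟩ := List.mem_map.mp hw
      rw [hLx x (h3' x hx), hLx y (h3' y hy)] at hvw ⊢
      simp only at hvw ⊢
      have hd := hunif ⟨x, h3' x hx⟩ ⟨y, h3' y hy⟩ (lt_of_le_of_lt (h2 x hx y hy) (by
        rw [mul_one]; exact hr))
      obtain ⟨hi, -⟩ := idx_spec n (f (mkR _ ⟨x, h3' x hx⟩))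
      have e1 := grp_spec n (f (mkR _ ⟨x, h3' x hx⟩)) hi
      have e2 := grp_spec n (f (mkR _ ⟨y, h3' y hy⟩)) (by rw [← hvw]; exact hi)
      have e3 : (⟨idx n (f (mkR _ ⟨y, h3' y hy⟩)), by rw [← hvw]; exact hi⟩ : Fin (n + 1)) =
        ⟨idx n (f (mkR _ ⟨x, h3' x hx⟩)), hi⟩ := Fin.ext hvw.symm
      rw [e3] at e2
      have e4 := lt_of_le_of_lt (dist_le_pi_dist (f (mkR _ ⟨x, h3' x hx⟩)).coord
        (f (mkR _ ⟨y, h3' y hy⟩)).coord
        (⟨grp n (f (mkR _ ⟨x, h3' x hx⟩)), ⟨idx n (f (mkR _ ⟨x, h3' x hx⟩)), hi⟩⟩ :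
          EVertex G n)) hd
      rw [Real.dist_eq, abs_lt] at e4
      refine grp_unique (f (mkR _ ⟨y, h3' y hy⟩))
        (i := ⟨idx n (f (mkR _ ⟨x, h3' x hx⟩)), hi⟩) ?_ ?_
      · refine ne_of_gt ?_
        linarith [e4.2]
      · exact (hpos.trans_le e2).ne'
  -- the chain map
  set Φ : (Fc G (n + 2) →₀ ℤ) →ₗ[ℤ] (Fc G (n + 1) →₀ ℤ) :=
    altL (n + 1) ∘ₗ chMap L ∘ₗ sdI r ∘ₗ vertL (n + 2) (pt (n + 1)) with hΦ
  have hΦs : ∀ σ, Φ (single σ 1) =
      altL (n + 1) (chMap L (sdI r (single (verts (n + 2) (pt (n + 1)) σ) 1))) := by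
    intro σ
    simp only [hΦ, LinearMap.comp_apply, vertL_single]
  refine no_chain_map (n + 1) Φ ?_ ?_ ?_
  · intro σ
    rw [hΦs, bdL_altL (hcompat σ), dd_chMap, dd_sdI, dd_single, one_smul, dl_verts]
    simp only [hΦ, LinearMap.comp_apply]
  · intro g σ
    rw [hΦs, hΦs, verts_sm (actL (n + 1) g) (n + 2) (pt (n + 1)) g
      (fun i h _ => actL_pt (n + 1) g h i) σ, ← chMap_single, sdI_chMap, ← altL_chMap]
    congr 1
    have := AllL.eq_of (hsmall σ) (f := chMap L ∘ₗ chMap (actL (n + 1) g))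
      (g := chMap (fun v => (v.1, g * v.2)) ∘ₗ chMap L) fun l hl => by
        simp only [LinearMap.comp_apply, chMap_single, List.map_map]
        congr 1
        refine List.map_congr_left fun x hx => ?_
        have hx' : x ∈ RSet (E G (n + 1)) := CFace_subset _ _ (hl.2.2 x hx)
        simp only [Function.comp_apply]
        rw [hLx x hx', hLx _ (actL_mem g hx')]
        have e : mkR (E G (n + 1)) ⟨actL (n + 1) g x, actL_mem g hx'⟩ =
          g • mkR (E G (n + 1)) ⟨x, hx'⟩ := rfl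
        rw [e, hg, idx_smul, grp_smul]
    simpa using this
  · rw [hΦs, verts_emp, sdI_nil, chMap_single, List.map_nil, altL_single, one_smul]
    rfl

end Main

end Pool.Agent.Helper73_CrossIndex
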