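import Mathlib

/-!
# Chain level part of the Borsuk–Ulam–Dold theorem for joins of a finite group
-/

universe u v

namespace Pool.Agent.Helper73_CrossIndex

open Finsupp (single mapDomain)

/-! ## Ordered (augmented) chains -/

/-- Ordered chains on a type of points: integral combinations of lists. -/
abbrev Ch (P : Type v) : Type v := List P →₀ ℤ

section Ordered

variable {P : Type v} {R : Type v}

/-- Put the point `a` in front. -/
noncomputable def consL (a : P) : Ch P →ₗ[ℤ] Ch P := Finsupp.lmapDomain ℤ ℤ (fun l => a :: l)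

@[simp] lemma consL_single (a : P) (l : List P) (c : ℤ) :
    consL a (single l c) = single (a :: l) c := by
  simp [consL, Finsupp.lmapDomain_apply, Finsupp.mapDomain_single]

/-- boundary of a list -/
noncomputable def dl : List P → Ch P
  | [] => 0
  | a :: l => single l 1 - consL a (dl l)

/-- boundary operator -/
noncomputable def dd : Ch P →ₗ[ℤ] Ch P := Finsupp.linearCombination ℤ dl

@[simp] lemma dd_single (l : List P) (c : ℤ) : dd (single l c) = c • dl l := by
  simp [dd, Finsupp.linearCombination_single]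

lemma dd_consL (a : P) (c : Ch P) : dd (consL a c) = c - consL a (dd c) := by
  induction c using Finsupp.induction_linear with
  | zero => simp
  | add f g hf hg => simp only [map_add, hf, hg]; abel
  | single l c =>
    simp only [consL_single, dd_single, dl, map_smul, smul_sub]
    congr 1
    simp

lemma dd_dl (l : List P) : dd (dl l) = 0 := by
  induction l with
  | nil => simp [dl]
  | cons a l ih =>
    rw [dl, map_sub, dd_consL, ih, map_zero, dd_single, one_smul, sub_zero, sub_self]

/-- functoriality -/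
noncomputable def chMap (f : P → R) : Ch P →ₗ[ℤ] Ch R := Finsupp.lmapDomain ℤ ℤ (List.map f)

@[simp] lemma chMap_single (f : P → R) (l : List P) (c : ℤ) :
    chMap f (single l c) = single (l.map f) c := by
  simp [chMap, Finsupp.lmapDomain_apply, Finsupp.mapDomain_single]

lemma chMap_consL (f : P → R) (a : P) (c : Ch P) :
    chMap f (consL a c) = consL (f a) (chMap f c) := by
  induction c using Finsupp.induction_linear with
  | zero => simp
  | add c₁ c₂ h₁ h₂ => simp only [map_add, h₁, h₂]
  | single l c => simp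

lemma dl_map (f : P → R) (l : List P) : dl (l.map f) = chMap f (dl l) := by
  induction l with
  | nil => simp [dl]
  | cons a l ih => simp [dl, ih, chMap_consL]

lemma dd_chMap (f : P → R) (c : Ch P) : dd (chMap f c) = chMap f (dd c) := by
  induction c using Finsupp.induction_linear with
  | zero => simp
  | add c₁ c₂ h₁ h₂ => simp only [map_add, h₁, h₂]
  | single l c => simp [dl_map]

/-- All lists in the support of a chain satisfy `p`. -/
def AllL {A : Type v} (p : A → Prop) (c : A →₀ ℤ) : Prop := ∀ l ∈ c.support, p l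

lemma AllL.zero {A : Type v} (p : A → Prop) : AllL p (0 : A →₀ ℤ) := by
  intro l hl; simp at hl

lemma AllL.single {A : Type v} {p : A → Prop} {l : A} (h : p l) (c : ℤ) :
    AllL p (Finsupp.single l c) := by
  intro l' hl'
  have := Finsupp.support_single_subset hl'
  rw [Finset.mem_singleton] at this
  rw [this]; exact h

lemma AllL.add {A : Type v} {p : A → Prop} {c d : A →₀ ℤ} (hc : AllL p c) (hd : AllL p d) :
    AllL p (c + d) := by
  classical
  intro l hl
  rcases Finset.mem_union.mp (Finsupp.support_add hl) with h | h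
  · exact hc l h
  · exact hd l h

lemma AllL.neg {A : Type v} {p : A → Prop} {c : A →₀ ℤ} (hc : AllL p c) : AllL p (-c) := by
  intro l hl
  rw [Finsupp.support_neg] at hl
  exact hc l hl

lemma AllL.sub {A : Type v} {p : A → Prop} {c d : A →₀ ℤ} (hc : AllL p c) (hd : AllL p d) :
    AllL p (c - d) := by
  rw [sub_eq_add_neg]; exact hc.add hd.neg

lemma AllL.smul {A : Type v} {p : A → Prop} {c : A →₀ ℤ} (hc : AllL p c) (z : ℤ) :
    AllL p (z • c) := by
  intro l hl
  exact hc l (Finsupp.support_smul hl)

lemma AllL.mono {A : Type v} {p q : A → Prop} {c : A →₀ ℤ} (hc : AllL p c)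
    (h : ∀ l, p l → q l) : AllL q c := fun l hl => h l (hc l hl)

lemma AllL.linearCombination {A : Type v} {B : Type v} {p : A → Prop} {q : B → Prop} {c : A →₀ ℤ}
    (hc : AllL p c) {f : A → (B →₀ ℤ)} (h : ∀ l, p l → AllL q (f l)) :
    AllL q (Finsupp.linearCombination ℤ f c) := by
  classical
  rw [Finsupp.linearCombination_apply, Finsupp.sum]
  have : ∀ s : Finset A, (∀ l ∈ s, p l) → AllL q (∑ a ∈ s, c a • f a) := by
    intro s
    induction s using Finset.induction_on with
    | empty => intro _; simpa using AllL.zero q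
    | insert a s ha ih =>
      intro hs
      rw [Finset.sum_insert ha]
      exact ((h a (hs a (Finset.mem_insert_self a s))).smul _).add
        (ih fun l hl => hs l (Finset.mem_insert_of_mem hl))
  exact this _ hc

lemma AllL.mapDomain {A : Type v} {B : Type v} {p : A → Prop} {q : B → Prop} {c : A →₀ ℤ}
    (hc : AllL p c) {f : A → B} (h : ∀ l, p l → q (f l)) :
    AllL q (Finsupp.mapDomain f c) := by
  classical
  intro l hl
  have := Finsupp.mapDomain_support hl
  rw [Finset.mem_image] at this
  obtain ⟨a, ha, rfl⟩ := this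
  exact h a (hc a ha)

/-- Two linear maps agreeing on all `single l 1` with `p l` agree on chains supported on `p`. -/
lemma AllL.eq_of {A : Type v} {M : Type*} [AddCommGroup M] {p : A → Prop} {c : A →₀ ℤ}
    (hc : AllL p c) {f g : (A →₀ ℤ) →ₗ[ℤ] M}
    (h : ∀ l, p l → f (Finsupp.single l 1) = g (Finsupp.single l 1)) : f c = g c := by
  have hcc : c = ∑ a ∈ c.support, c a • Finsupp.single a (1 : ℤ) := by
    conv_lhs => rw [← Finsupp.sum_single c]
    rw [Finsupp.sum]
    refine Finset.sum_congr rfl fun a _ => ?_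
    rw [Finsupp.smul_single, smul_eq_mul, mul_one]
  rw [hcc, map_sum, map_sum]
  refine Finset.sum_congr rfl fun a ha => ?_
  rw [map_smul, map_smul, h a (hc a ha)]

lemma dl_all (l : List P) : AllL (fun l' => l'.length + 1 = l.length ∧ ∀ x ∈ l', x ∈ l) (dl l) := by
  induction l with
  | nil => simpa [dl] using AllL.zero _
  | cons a l ih =>
    rw [dl]
    refine AllL.sub (AllL.single ⟨by simp, fun x hx => List.mem_cons_of_mem a hx⟩ 1) ?_
    refine AllL.mapDomain ih fun l' hl' => ⟨by simp [hl'.1], fun x hx => ?_⟩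
    rcases List.mem_cons.mp hx with rfl | hx
    · exact List.mem_cons_self
    · exact List.mem_cons_of_mem a (hl'.2 x hx)

end Ordered

/-! ## The augmented simplicial chain complex of the join of `n` copies of `G` -/

/-- Faces (including the empty one) of the join of `n` copies of `G`. -/
inductive Fc (G : Type u) : ℕ → Type u
  | nil : Fc G 0
  | cons {n : ℕ} : Option G → Fc G n → Fc G (n + 1)

/-- splitting off the first entry -/
def Fc.consEquiv (G : Type u) (n : ℕ) : Option G × Fc G n ≃ Fc G (n + 1) where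
  toFun p := Fc.cons p.1 p.2
  invFun
    | Fc.cons a t => (a, t)
  left_inv _ := rfl
  right_inv
    | Fc.cons _ _ => rfl

/-- the only face with no entries -/
def Fc.nilEquiv (G : Type u) : PUnit.{u + 1} ≃ Fc G 0 where
  toFun _ := Fc.nil
  invFun _ := PUnit.unit
  left_inv _ := rfl
  right_inv
    | Fc.nil => rfl

instance Fc.fintype (G : Type u) [Fintype G] : (n : ℕ) → Fintype (Fc G n)
  | 0 => Fintype.ofEquiv _ (Fc.nilEquiv G)
  | n + 1 =>
    haveI := Fc.fintype G n
    Fintype.ofEquiv _ (Fc.consEquiv G n)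

section Simplicial

variable {G : Type u}

/-- prepend an entry -/
noncomputable def pc {n : ℕ} (a : Option G) : (Fc G n →₀ ℤ) →ₗ[ℤ] (Fc G (n + 1) →₀ ℤ) :=
  Finsupp.lmapDomain ℤ ℤ (fun t => (.cons a t : Fc G (n + 1)))

@[simp] lemma pc_single {n : ℕ} (a : Option G) (t : Fc G n) (c : ℤ) :
    pc a (single t c) = single (.cons a t : Fc G (n + 1)) c := by
  simp only [pc, Finsupp.lmapDomain_apply]
  exact Finsupp.mapDomain_single

/-- the empty face -/
def emp (G : Type u) : (n : ℕ) → Fc G n
  | 0 => .nil
  | n + 1 => .cons none (emp G n)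

/-- boundary of a face -/
noncomputable def bd : (n : ℕ) → Fc G n → (Fc G n →₀ ℤ)
  | 0, _ => 0
  | n + 1, (.cons none t) => pc none (bd n t)
  | n + 1, (.cons (some g) t) => single (.cons none t : Fc G (n + 1)) 1 - pc (some g) (bd n t)

/-- boundary operator -/
noncomputable def bdL (n : ℕ) : (Fc G n →₀ ℤ) →ₗ[ℤ] (Fc G n →₀ ℤ) :=
  Finsupp.linearCombination ℤ (bd n)

@[simp] lemma bdL_single {n : ℕ} (t : Fc G n) (c : ℤ) : bdL n (single t c) = c • bd n t := by
  simp [bdL, Finsupp.linearCombination_single]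

lemma bdL_pc_none {n : ℕ} (c : Fc G n →₀ ℤ) :
    bdL (n + 1) (pc none c) = pc none (bdL n c) := by
  induction c using Finsupp.induction_linear with
  | zero => simp
  | add c₁ c₂ h₁ h₂ => simp only [map_add, h₁, h₂]
  | single t c => simp [bd]

lemma bdL_pc_some {n : ℕ} (g : G) (c : Fc G n →₀ ℤ) :
    bdL (n + 1) (pc (some g) c) = pc none c - pc (some g) (bdL n c) := by
  induction c using Finsupp.induction_linear with
  | zero => simp
  | add c₁ c₂ h₁ h₂ => simp only [map_add, h₁, h₂]; abel
  | single t c => simp [bd, smul_sub]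

/-- left multiplication by the vertex `(i, g)` on faces -/
noncomputable def wd : (n : ℕ) → ℕ → G → Fc G n → (Fc G n →₀ ℤ)
  | 0, _, _, _ => 0
  | n + 1, 0, g, (.cons none t) => single (.cons (some g) t : Fc G (n + 1)) 1
  | n + 1, 0, _, (.cons (some _) _) => 0
  | n + 1, i + 1, g, (.cons none t) => pc none (wd n i g t)
  | n + 1, i + 1, g, (.cons (some h) t) => - pc (some h) (wd n i g t)

/-- left multiplication by the vertex `(i, g)` -/
noncomputable def wdL (n : ℕ) (i : ℕ) (g : G) : (Fc G n →₀ ℤ) →ₗ[ℤ] (Fc G n →₀ ℤ) :=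
  Finsupp.linearCombination ℤ (wd n i g)

@[simp] lemma wdL_single {n : ℕ} (i : ℕ) (g : G) (t : Fc G n) (c : ℤ) :
    wdL n i g (single t c) = c • wd n i g t := by
  simp [wdL, Finsupp.linearCombination_single]

lemma wdL_zero_pc_none {n : ℕ} (g : G) (c : Fc G n →₀ ℤ) :
    wdL (n + 1) 0 g (pc none c) = pc (some g) c := by
  induction c using Finsupp.induction_linear with
  | zero => simp
  | add c₁ c₂ h₁ h₂ => simp only [map_add, h₁, h₂]
  | single t c => simp [wd]

lemma wdL_zero_pc_some {n : ℕ} (g h : G) (c : Fc G n →₀ ℤ) :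
    wdL (n + 1) 0 g (pc (some h) c) = 0 := by
  induction c using Finsupp.induction_linear with
  | zero => simp
  | add c₁ c₂ h₁ h₂ => simp only [map_add, h₁, h₂, add_zero]
  | single t c => simp [wd]

lemma wdL_succ_pc_none {n : ℕ} (i : ℕ) (g : G) (c : Fc G n →₀ ℤ) :
    wdL (n + 1) (i + 1) g (pc none c) = pc none (wdL n i g c) := by
  induction c using Finsupp.induction_linear with
  | zero => simp
  | add c₁ c₂ h₁ h₂ => simp only [map_add, h₁, h₂]
  | single t c => simp [wd]

lemma wdL_succ_pc_some {n : ℕ} (i : ℕ) (g h : G) (c : Fc G n →₀ ℤ) :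
    wdL (n + 1) (i + 1) g (pc (some h) c) = - pc (some h) (wdL n i g c) := by
  induction c using Finsupp.induction_linear with
  | zero => simp
  | add c₁ c₂ h₁ h₂ => simp only [map_add, h₁, h₂]; abel
  | single t c => simp [wd]

/-- the entry of a face at place `i` -/
def ent : (n : ℕ) → ℕ → Fc G n → Option G
  | 0, _, _ => none
  | _ + 1, 0, .cons a _ => a
  | n + 1, i + 1, .cons _ t => ent n i t

/-- The key identity: `∂ (v ∧ σ) + v ∧ ∂ σ = σ` if the entry of `σ` at the place of `v` is
compatible with `v`. -/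
lemma bd_wd : (n : ℕ) → (i : ℕ) → (g : G) → (σ : Fc G n) → i < n →
    (∀ h, ent n i σ = some h → h = g) →
    bdL n (wd n i g σ) + wdL n i g (bd n σ) = single σ 1
  | 0, _, _, _, hi, _ => absurd hi (Nat.not_lt_zero _)
  | n + 1, 0, g, (.cons none t), _, _ => by
    simp [wd, bd, wdL_zero_pc_none]
  | n + 1, 0, g, (.cons (some h) t), _, hc => by
    have : h = g := hc h rfl
    subst this
    simp only [wd, bd, map_zero, map_sub, wdL_zero_pc_some, zero_add, sub_zero]
    rw [wdL_single]
    simp [wd]
  | n + 1, i + 1, g, (.cons none t), hi, hc => by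
    have ih := bd_wd n i g t (Nat.lt_of_succ_lt_succ hi) hc
    simp only [wd, bd, bdL_pc_none, wdL_succ_pc_none]
    rw [← map_add, ih, pc_single]
  | n + 1, i + 1, g, (.cons (some h) t), hi, hc => by
    have ih := bd_wd n i g t (Nat.lt_of_succ_lt_succ hi) hc
    simp only [wd, bd, map_neg, map_sub, bdL_pc_some, wdL_succ_pc_some]
    rw [wdL_single]
    simp only [wd, one_smul]
    rw [← pc_single, ← ih, map_add]
    abel

lemma ent_wd : (n : ℕ) → (i : ℕ) → (g : G) → (σ : Fc G n) →
    AllL (fun σ' => ∀ j h, ent n j σ' = some h → ent n j σ = some h ∨ (j = i ∧ h = g)) (wd n i g σ)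
  | 0, _, _, _ => by
    simp only [wd]
    exact AllL.zero _
  | n + 1, 0, g, (.cons none t) => by
    rw [wd]
    refine AllL.single ?_ 1
    intro j h hj
    cases j with
    | zero =>
      right
      refine ⟨rfl, ?_⟩
      simp only [ent, Option.some.injEq] at hj
      exact hj.symm
    | succ j => left; exact hj
  | n + 1, 0, g, (.cons (some h) t) => AllL.zero _
  | n + 1, i + 1, g, (.cons none t) => by
    rw [wd]
    refine AllL.mapDomain (ent_wd n i g t) fun σ' h' j h hj => ?_
    cases j with
    | zero => simp [ent] at hj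
    | succ j =>
      rcases h' j h hj with h1 | ⟨h1, h2⟩
      · exact Or.inl h1
      · exact Or.inr ⟨by rw [h1], h2⟩
  | n + 1, i + 1, g, (.cons (some k) t) => by
    rw [wd]
    refine AllL.neg (AllL.mapDomain (ent_wd n i g t) fun σ' h' j h hj => ?_)
    cases j with
    | zero => left; exact hj
    | succ j =>
      rcases h' j h hj with h1 | ⟨h1, h2⟩
      · exact Or.inl h1
      · exact Or.inr ⟨by rw [h1], h2⟩

/-- alternation: a list of vertices gives a signed face or zero -/
noncomputable def alt (n : ℕ) : List (ℕ × G) → (Fc G n →₀ ℤ)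
  | [] => single (emp G n) 1
  | v :: l => wdL n v.1 v.2 (alt n l)

/-- alternation as a linear map -/
noncomputable def altL (n : ℕ) : Ch (ℕ × G) →ₗ[ℤ] (Fc G n →₀ ℤ) :=
  Finsupp.linearCombination ℤ (alt n)

@[simp] lemma altL_single {n : ℕ} (l : List (ℕ × G)) (c : ℤ) :
    altL n (single l c) = c • alt n l := by
  simp [altL, Finsupp.linearCombination_single]

lemma altL_consL {n : ℕ} (v : ℕ × G) (c : Ch (ℕ × G)) :
    altL n (consL v c) = wdL n v.1 v.2 (altL n c) := by
  induction c using Finsupp.induction_linear with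
  | zero => simp
  | add c₁ c₂ h₁ h₂ => simp only [map_add, h₁, h₂]
  | single l c => simp [alt]

lemma ent_emp : (n : ℕ) → (j : ℕ) → ent n j (emp G n) = none
  | 0, _ => by simp [ent]
  | _ + 1, 0 => rfl
  | n + 1, j + 1 => ent_emp n j

lemma ent_alt (n : ℕ) (l : List (ℕ × G)) :
    AllL (fun σ => ∀ j h, ent n j σ = some h → (j, h) ∈ l) (alt n l) := by
  induction l with
  | nil =>
    refine AllL.single ?_ 1
    intro j h hj
    rw [ent_emp] at hj
    simp at hj
  | cons v l ih =>
    rw [alt]
    refine AllL.linearCombination ih fun σ hσ => (ent_wd n v.1 v.2 σ).mono fun σ' h' j h hj => ?_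
    rcases h' j h hj with h1 | ⟨h1, h2⟩
    · exact List.mem_cons_of_mem _ (hσ j h h1)
    · have : (j, h) = v := Prod.ext h1 h2
      rw [this]; exact List.mem_cons_self

/-- compatible lists of vertices -/
def Compat (n : ℕ) (l : List (ℕ × G)) : Prop :=
  (∀ v ∈ l, v.1 < n) ∧ ∀ v ∈ l, ∀ w ∈ l, v.1 = w.1 → v.2 = w.2

lemma bdL_alt {n : ℕ} (l : List (ℕ × G)) (hl : Compat n l) :
    bdL n (alt n l) = altL n (dl l) := by
  induction l with
  | nil =>
    simp only [alt, dl, map_zero, bdL_single, one_smul]
    have : ∀ n : ℕ, bd n (emp G n) = 0 := by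
      intro n
      induction n with
      | zero => rfl
      | succ n ih => rw [emp, bd, ih, map_zero]
    exact this n
  | cons v l ih =>
    have ih' := ih ⟨fun w hw => hl.1 w (List.mem_cons_of_mem _ hw),
      fun w hw w' hw' => hl.2 w (List.mem_cons_of_mem _ hw) w' (List.mem_cons_of_mem _ hw')⟩
    have key : (bdL n ∘ₗ wdL n v.1 v.2 + wdL n v.1 v.2 ∘ₗ bdL n) (alt n l) =
        (LinearMap.id : (Fc G n →₀ ℤ) →ₗ[ℤ] (Fc G n →₀ ℤ)) (alt n l) := by
      refine AllL.eq_of (ent_alt n l) fun σ hσ => ?_
      simp only [LinearMap.add_apply, LinearMap.comp_apply, wdL_single, bdL_single, one_smul,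
        LinearMap.id_apply]
      refine bd_wd n v.1 v.2 σ (hl.1 v List.mem_cons_self) fun h hh => ?_
      have := hσ _ _ hh
      exact hl.2 (v.1, h) (List.mem_cons_of_mem _ this) v List.mem_cons_self rfl
    simp only [LinearMap.add_apply, LinearMap.comp_apply, LinearMap.id_apply] at key
    rw [alt, dl, map_sub, altL_consL, altL_single, one_smul, ← ih']
    exact eq_sub_of_add_eq key

lemma bdL_altL {n : ℕ} {c : Ch (ℕ × G)} (hc : AllL (Compat n) c) :
    bdL n (altL n c) = altL n (dd c) := by
  have := AllL.eq_of hc (f := bdL n ∘ₗ altL n) (g := altL n ∘ₗ dd) fun l hl => by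
    simp only [LinearMap.comp_apply, altL_single, one_smul, dd_single]
    exact bdL_alt l hl
  simpa using this

/-- the list of the vertices of a face -/
def verts {P : Type v} : (n : ℕ) → (ℕ → G → P) → Fc G n → List P
  | 0, _, _ => []
  | n + 1, p, (.cons none t) => verts n (fun i => p (i + 1)) t
  | n + 1, p, (.cons (some g) t) => p 0 g :: verts n (fun i => p (i + 1)) t

/-- faces to ordered chains -/
noncomputable def vertL {P : Type v} (n : ℕ) (p : ℕ → G → P) : (Fc G n →₀ ℤ) →ₗ[ℤ] Ch P :=
  Finsupp.linearCombination ℤ (fun σ => single (verts n p σ) 1)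

@[simp] lemma vertL_single {P : Type v} {n : ℕ} (p : ℕ → G → P) (σ : Fc G n) (c : ℤ) :
    vertL n p (single σ c) = single (verts n p σ) c := by
  simp [vertL, Finsupp.linearCombination_single]

lemma vertL_pc_none {P : Type v} {n : ℕ} (p : ℕ → G → P) (c : Fc G n →₀ ℤ) :
    vertL (n + 1) p (pc none c) = vertL n (fun i => p (i + 1)) c := by
  induction c using Finsupp.induction_linear with
  | zero => simp
  | add c₁ c₂ h₁ h₂ => simp only [map_add, h₁, h₂]
  | single t c => simp [verts]

lemma vertL_pc_some {P : Type v} {n : ℕ} (p : ℕ → G → P) (g : G) (c : Fc G n →₀ ℤ) :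
    vertL (n + 1) p (pc (some g) c) = consL (p 0 g) (vertL n (fun i => p (i + 1)) c) := by
  induction c using Finsupp.induction_linear with
  | zero => simp
  | add c₁ c₂ h₁ h₂ => simp only [map_add, h₁, h₂]
  | single t c => simp [verts]

lemma dl_verts {P : Type v} : (n : ℕ) → (p : ℕ → G → P) → (σ : Fc G n) →
    dl (verts n p σ) = vertL n p (bd n σ)
  | 0, p, σ => by simp [verts, bd, dl]
  | n + 1, p, (.cons none t) => by
    rw [verts, bd, vertL_pc_none]
    exact dl_verts n _ t
  | n + 1, p, (.cons (some g) t) => by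
    rw [verts, bd, dl, dl_verts n _ t, map_sub, vertL_pc_some, vertL_single, verts]

lemma dd_vertL {P : Type v} {n : ℕ} (p : ℕ → G → P) (c : Fc G n →₀ ℤ) :
    dd (vertL n p c) = vertL n p (bdL n c) := by
  induction c using Finsupp.induction_linear with
  | zero => simp
  | add c₁ c₂ h₁ h₂ => simp only [map_add, h₁, h₂]
  | single t c => simp [dl_verts]

/-! ### Signs and traces -/

/-- parity sign of a face -/
def eps : (n : ℕ) → Fc G n → ℤ
  | 0, _ => 1
  | n + 1, (.cons none t) => eps n t
  | n + 1, (.cons (some _) t) => - eps n t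

/-- sign operator -/
noncomputable def epL (n : ℕ) : (Fc G n →₀ ℤ) →ₗ[ℤ] (Fc G n →₀ ℤ) :=
  Finsupp.linearCombination ℤ (fun σ => single σ (eps n σ))

@[simp] lemma epL_single {n : ℕ} (t : Fc G n) (c : ℤ) :
    epL n (single t c) = single t (c * eps n t) := by
  simp [epL, Finsupp.linearCombination_single]

lemma epL_pc_none {n : ℕ} (c : Fc G n →₀ ℤ) :
    epL (n + 1) (pc none c) = pc none (epL n c) := by
  induction c using Finsupp.induction_linear with
  | zero => simp
  | add c₁ c₂ h₁ h₂ => simp only [map_add, h₁, h₂]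
  | single t c => simp only [pc_single, epL_single, eps]

lemma epL_pc_some {n : ℕ} (g : G) (c : Fc G n →₀ ℤ) :
    epL (n + 1) (pc (some g) c) = - pc (some g) (epL n c) := by
  induction c using Finsupp.induction_linear with
  | zero => simp
  | add c₁ c₂ h₁ h₂ => simp only [map_add, h₁, h₂]; abel
  | single t c => simp only [pc_single, epL_single, eps, mul_neg, Finsupp.single_neg]

lemma epL_bd : (n : ℕ) → (σ : Fc G n) → epL n (bd n σ) = - (eps n σ • bd n σ)
  | 0, _ => by simp [bd]
  | n + 1, (.cons none t) => by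
    rw [bd, epL_pc_none, epL_bd n t, eps, map_neg, map_smul]
  | n + 1, (.cons (some g) t) => by
    rw [bd, map_sub, epL_pc_some, epL_bd n t, eps, map_neg, map_smul, epL_single, eps, smul_sub,
      neg_smul, neg_smul, Finsupp.smul_single, smul_eq_mul, mul_one, one_mul]
    abel

lemma epL_bdL {n : ℕ} (c : Fc G n →₀ ℤ) : epL n (bdL n c) = - bdL n (epL n c) := by
  induction c using Finsupp.induction_linear with
  | zero => simp
  | add c₁ c₂ h₁ h₂ => simp only [map_add, h₁, h₂]; abel
  | single t c =>
    rw [bdL_single, map_smul, epL_bd, epL_single, bdL_single, smul_neg, smul_smul]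

/-- trace -/
noncomputable def trc {ι : Type u} [Fintype ι] (M : (ι →₀ ℤ) →ₗ[ℤ] (ι →₀ ℤ)) : ℤ :=
  ∑ i, M (single i 1) i

lemma apply_eq_sum {ι κ : Type u} [Fintype ι] (A : (ι →₀ ℤ) →ₗ[ℤ] (κ →₀ ℤ)) (c : ι →₀ ℤ)
    (k : κ) : A c k = ∑ i, c i * A (single i 1) k := by
  have hc : c = ∑ i, c i • Finsupp.single i (1 : ℤ) := by
    ext j
    rw [Finsupp.finsetSum_apply, Finset.sum_eq_single j]
    · simp
    · intro i _ hij
      simp [Finsupp.single_eq_of_ne (Ne.symm hij)]
    · intro h; exact absurd (Finset.mem_univ j) h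
  conv_lhs => rw [hc]
  rw [map_sum, Finsupp.finsetSum_apply]
  refine Finset.sum_congr rfl fun i _ => ?_
  rw [map_smul, Finsupp.smul_apply, smul_eq_mul]

lemma trc_comm {ι κ : Type u} [Fintype ι] [Fintype κ] (A : (ι →₀ ℤ) →ₗ[ℤ] (κ →₀ ℤ))
    (B : (κ →₀ ℤ) →ₗ[ℤ] (ι →₀ ℤ)) : trc (A ∘ₗ B) = trc (B ∘ₗ A) := by
  simp only [trc, LinearMap.comp_apply]
  calc ∑ k, A (B (single k 1)) k = ∑ k, ∑ i, B (single k 1) i * A (single i 1) k := by
        refine Finset.sum_congr rfl fun k _ => apply_eq_sum A _ k
    _ = ∑ i, ∑ k, B (single k 1) i * A (single i 1) k := Finset.sum_comm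
    _ = ∑ i, B (A (single i 1)) i := by
        refine Finset.sum_congr rfl fun i _ => ?_
        rw [apply_eq_sum B _ i]
        refine Finset.sum_congr rfl fun k _ => mul_comm _ _

lemma trc_add {ι : Type u} [Fintype ι] (A B : (ι →₀ ℤ) →ₗ[ℤ] (ι →₀ ℤ)) :
    trc (A + B) = trc A + trc B := by
  simp [trc, Finset.sum_add_distrib]

lemma strc_eq_zero [Fintype G] {n : ℕ} (h : (Fc G n →₀ ℤ) →ₗ[ℤ] (Fc G n →₀ ℤ)) :
    trc (epL n ∘ₗ (bdL n ∘ₗ h + h ∘ₗ bdL n)) = 0 := by
  rw [LinearMap.comp_add, trc_add]
  have h1 : trc (epL n ∘ₗ h ∘ₗ bdL n) = trc ((bdL n ∘ₗ epL n) ∘ₗ h) := by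
    rw [← LinearMap.comp_assoc, trc_comm, LinearMap.comp_assoc]
  rw [h1, ← trc_add, ← LinearMap.comp_assoc, ← LinearMap.add_comp]
  have h2 : epL n ∘ₗ bdL n + bdL n ∘ₗ epL n = (0 : (Fc G n →₀ ℤ) →ₗ[ℤ] (Fc G n →₀ ℤ)) := by
    refine LinearMap.ext fun c => ?_
    simp only [LinearMap.add_apply, LinearMap.comp_apply, epL_bdL, LinearMap.zero_apply]
    abel
  rw [h2, LinearMap.zero_comp]
  simp [trc]

/-! ### The group action -/

/-- left translation of faces -/
def sm [Group G] : (n : ℕ) → G → Fc G n → Fc G n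
  | 0, _, t => t
  | n + 1, g, .cons a t => .cons (a.map (g * ·)) (sm n g t)

lemma sm_inv_sm [Group G] : (n : ℕ) → (g : G) → (t : Fc G n) → sm n g⁻¹ (sm n g t) = t
  | 0, _, _ => by simp only [sm]
  | n + 1, g, (.cons none t) => by
    simp only [sm, Option.map_none, sm_inv_sm n g t]
  | n + 1, g, (.cons (some h) t) => by
    simp only [sm, Option.map_some, sm_inv_sm n g t, inv_mul_cancel_left]

/-- translation as an equivalence -/
def smE [Group G] (n : ℕ) (g : G) : Fc G n ≃ Fc G n where
  toFun := sm n g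
  invFun := sm n g⁻¹
  left_inv := sm_inv_sm n g
  right_inv t := by
    have := sm_inv_sm n g⁻¹ t
    rwa [inv_inv] at this

lemma sum_invariant [Group G] [Fintype G] : (n : ℕ) → (f : Fc G n → ℤ) →
    (∀ g t, f (sm n g t) = f t) → (Fintype.card G : ℤ) ∣ ∑ t, f t - f (emp G n)
  | 0, f, _ => by
    have : ∑ t : Fc G 0, f t = f (emp G 0) := by
      rw [← Equiv.sum_comp (Fc.nilEquiv G)]
      simp only [Finset.univ_unique, Finset.sum_singleton]
      rfl
    rw [this, sub_self]
    exact dvd_zero _
  | n + 1, f, hf => by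
    have h1 : ∑ t : Fc G (n + 1), f t = ∑ a : Option G, ∑ t : Fc G n, f (.cons a t) := by
      rw [← Equiv.sum_comp (Fc.consEquiv G n)]
      exact Fintype.sum_prod_type _
    rw [h1, Fintype.sum_option]
    have h2 : ∀ g : G, ∑ t : Fc G n, f (.cons (some g) t) = ∑ t : Fc G n, f (.cons (some 1) t) := by
      intro g
      rw [← Equiv.sum_comp (smE n g)]
      refine Finset.sum_congr rfl fun t _ => ?_
      have := hf g (.cons (some 1) t)
      simp only [sm, Option.map_some, mul_one] at this
      exact this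
    rw [Finset.sum_congr rfl fun g _ => h2 g, Finset.sum_const, Finset.card_univ]
    have h3 := sum_invariant n (fun t => f (.cons none t)) (fun g t => by
      have := hf g (.cons none t)
      simpa only [sm, Option.map_none] using this)
    rw [add_sub_right_comm]
    refine dvd_add h3 ?_
    rw [nsmul_eq_mul]
    exact dvd_mul_right _ _

lemma eps_sm [Group G] : (n : ℕ) → (g : G) → (t : Fc G n) → eps n (sm n g t) = eps n t
  | 0, _, _ => by simp only [sm]
  | n + 1, g, (.cons none t) => by simp only [sm, Option.map_none, eps, eps_sm n g t]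
  | n + 1, g, (.cons (some h) t) => by simp only [sm, Option.map_some, eps, eps_sm n g t]

lemma eps_emp (n : ℕ) : eps n (emp G n) = 1 := by
  induction n with
  | zero => rfl
  | succ n ih => rw [emp, eps, ih]

/-- **Algebraic Borsuk–Ulam–Dold theorem.** There is no equivariant augmentation preserving chain
map from the augmented chain complex of the join of `n + 1` copies of `G` to that of the join of
`n` copies. -/
theorem no_chain_map [Group G] [Fintype G] [Nontrivial G] (n : ℕ)
    (Φ : (Fc G (n + 1) →₀ ℤ) →ₗ[ℤ] (Fc G n →₀ ℤ))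
    (h1 : ∀ σ, bdL n (Φ (single σ 1)) = Φ (bd (n + 1) σ))
    (h2 : ∀ (g : G) σ, Φ (single (sm (n + 1) g σ) 1) = mapDomain (sm n g) (Φ (single σ 1)))
    (h3 : Φ (single (emp G (n + 1)) 1) = single (emp G n) 1) : False := by
  -- the cone homotopy
  have h1' : ∀ c, bdL n (Φ c) = Φ (bdL (n + 1) c) := by
    intro c
    induction c using Finsupp.induction_linear with
    | zero => simp
    | add c₁ c₂ h₁ h₂ => simp only [map_add, h₁, h₂]
    | single t c =>
      have : (single t c : Fc G (n + 1) →₀ ℤ) = c • single t 1 := by simp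
      rw [this, map_smul, map_smul, h1, map_smul, map_smul, bdL_single, one_smul]
  set ψ : (Fc G n →₀ ℤ) →ₗ[ℤ] (Fc G n →₀ ℤ) := Φ ∘ₗ pc none with hψ
  set H : (Fc G n →₀ ℤ) →ₗ[ℤ] (Fc G n →₀ ℤ) := Φ ∘ₗ pc (some 1) with hH
  have key : ψ = bdL n ∘ₗ H + H ∘ₗ bdL n := by
    refine LinearMap.ext fun c => ?_
    simp only [hψ, hH, LinearMap.add_apply, LinearMap.comp_apply]
    rw [h1', bdL_pc_some, map_sub]
    abel
  have hz := strc_eq_zero (G := G) H
  rw [← key] at hz
  have hinv : ∀ (g : G) (t : Fc G n),
      (fun t => eps n t * ψ (single t 1) t) (sm n g t) = (fun t => eps n t * ψ (single t 1) t) t := by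
    intro g t
    simp only [hψ, LinearMap.comp_apply, pc_single]
    have := h2 g (.cons none t)
    simp only [sm, Option.map_none] at this
    rw [this, eps_sm]
    congr 1
    exact Finsupp.mapDomain_apply (smE n g).injective _ t
  have hdvd := sum_invariant n (fun t => eps n t * ψ (single t 1) t) hinv
  have hsum : ∑ t, (fun t => eps n t * ψ (single t 1) t) t = 0 := by
    rw [← hz]
    simp only [trc, LinearMap.comp_apply]
    refine Finset.sum_congr rfl fun t _ => ?_
    have : ∀ c : Fc G n →₀ ℤ, (epL n c) t = eps n t * c t := by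
      intro c
      classical
      induction c using Finsupp.induction_linear with
      | zero => simp
      | add c₁ c₂ h₁ h₂ => simp only [map_add, Finsupp.add_apply, h₁, h₂, mul_add]
      | single s c =>
        rw [epL_single]
        by_cases hs : s = t
        · subst hs; simp [mul_comm]
        · simp [Finsupp.single_eq_of_ne (Ne.symm hs)]
    rw [this]
  rw [hsum] at hdvd
  have hemp : (fun t => eps n t * ψ (single t 1) t) (emp G n) = 1 := by
    simp only [hψ, LinearMap.comp_apply, pc_single]
    have : ((.cons none (emp G n)) : Fc G (n + 1)) = emp G (n + 1) := rfl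
    rw [this, h3, eps_emp]
    simp
  beta_reduce at hemp
  rw [hemp, zero_sub, dvd_neg] at hdvd
  have hcard : Fintype.card G = 1 := by
    have := Int.natAbs_dvd_natAbs.mpr hdvd
    simpa using this
  exact absurd hcard (Fintype.one_lt_card (α := G)).ne'

end Simplicial

end Pool.Agent.Helper73_CrossIndex
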