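import Pool.Agent.Helper73_CrossIndex.Shift
import Pool.Agent.Helper73_CrossIndex.Dold

/-!
# The complexes with `ind = m` and `Xind = n`
-/

universe u

namespace Pool.Agent.Helper73_CrossIndex

/-- vertices: a group element and a label -/
@[ext]
structure LV (G : Type u) (L : Type) : Type u where
  /-- the group element -/
  elt : G
  /-- the label -/
  lab : L

/-- `LV G L` is `G × L`. -/
def LV.equiv (G : Type u) (L : Type) : LV G L ≃ G × L where
  toFun v := (v.elt, v.lab)
  invFun p := ⟨p.1, p.2⟩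
  left_inv _ := rfl
  right_inv _ := rfl

instance {G : Type u} [Fintype G] {L : Type} [Fintype L] : Fintype (LV G L) :=
  Fintype.ofEquiv _ (LV.equiv G L).symm

instance {G : Type u} [Group G] {L : Type} : MulAction G (LV G L) where
  smul g v := ⟨g * v.elt, v.lab⟩
  one_smul v := LV.ext (one_mul v.elt) rfl
  mul_smul g h v := LV.ext (mul_assoc g h v.elt) rfl

/-- windows of length `N` -/
def window {q : ℕ} (N : ℕ) (c : ℕ → Fin q) (t : ℕ) : Fin N → Fin q := fun j => c (t + j)

lemma window_shift {q : ℕ} (N : ℕ) (c : ℕ → Fin q) (t : ℕ) :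
    window N (shiftS c) t = window N c (t + 1) := by
  funext j
  simp only [window, shiftS]
  congr 1
  omega

lemma window_congr {q N i t : ℕ} {c c' : ℕ → Fin q} (h : ∀ a < N + i, c a = c' a) (ht : t ≤ i) :
    window N c t = window N c' t := by
  funext j
  have := j.2
  exact h _ (by omega)

lemma window_inj {q N i s t : ℕ} {c : ℕ → Fin q} (hN : 0 < N) (hc : Mono (N + i) c) (hs : s ≤ i)
    (ht : t ≤ i) (h : window N c s = window N c t) : s = t := by
  have h0 : c s = c t := congrFun h ⟨0, hN⟩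
  by_contra hne
  rcases lt_or_gt_of_ne hne with h1 | h1
  · exact absurd h0 (hc s t h1 (by omega)).ne
  · exact absurd h0 (hc t s h1 (by omega)).ne'

section

variable {G : Type u} [Group G]

/-- the label set -/
abbrev Lab (q N m : ℕ) : Type := (Fin N → Fin q) ⊕ Fin (m + 1)

/-- the vertices of a window simplex -/
def wv {q : ℕ} (N m : ℕ) (g h : G) (c : ℕ → Fin q) (t : ℕ) : LV G (Lab q N m) :=
  ⟨h * g ^ t, Sum.inl (window N c t)⟩

/-- `s` is (contained in) a window simplex -/
def IsWin (q N m n : ℕ) (g : G) (s : Finset (LV G (Lab q N m))) : Prop :=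
  ∃ i ≤ n, ∃ c : ℕ → Fin q, Mono (N + i) c ∧ ∃ h : G, ∀ v ∈ s, ∃ t ≤ i, v = wv N m g h c t

/-- `s` is a simplex of `E_m G` -/
def IsBar (q N m : ℕ) (s : Finset (LV G (Lab q N m))) : Prop :=
  (∀ v ∈ s, ∃ i, v.lab = Sum.inr i) ∧ ∀ v ∈ s, ∀ w ∈ s, v.lab = w.lab → v = w

/-- `s` is contained in a linking edge between a window vertex and a vertex of `E_m G` of
positive level -/
def IsLink (q N m : ℕ) (s : Finset (LV G (Lab q N m))) : Prop :=
  ∃ (h h' : G) (a : Fin N → Fin q) (i : Fin (m + 1)), (i : ℕ) ≠ 0 ∧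
    ∀ v ∈ s, v = ⟨h, Sum.inl a⟩ ∨ v = ⟨h', Sum.inr i⟩

lemma smul_wv {q : ℕ} (N m : ℕ) (x g h : G) (c : ℕ → Fin q) (t : ℕ) :
    x • wv N m g h c t = wv N m g (x * h) c t :=
  LV.ext (by change x * (h * g ^ t) = x * h * g ^ t; rw [mul_assoc]) rfl

/-- The complex. -/
def KC [Fintype G] (q m n : ℕ) (g : G) : GComplex G where
  V := LV G (Lab q (n + 1) m)
  K :=
    { faces := {s | s.Nonempty ∧ ((∃ v, s = {v}) ∨ IsWin q (n + 1) m n g s ∨
        IsBar q (n + 1) m s ∨ IsLink q (n + 1) m s)}
      isRelLowerSet_faces := fun s hs => ⟨hs.1, fun t hts ht => ⟨ht, by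
        rcases hs.2 with ⟨v, rfl⟩ | ⟨i, hi, c, hc, h, hh⟩ | ⟨h1, h2⟩ | ⟨h, h', a, i, hi, hh⟩
        · left
          exact ⟨v, (Finset.subset_singleton_iff.mp hts).resolve_left ht.ne_empty⟩
        · right; left
          exact ⟨i, hi, c, hc, h, fun v hv => hh v (hts hv)⟩
        · right; right; left
          exact ⟨fun v hv => h1 v (hts hv), fun v hv w hw => h2 v (hts hv) w (hts hw)⟩
        · right; right; right
          exact ⟨h, h', a, i, hi, fun v hv => hh v (hts hv)⟩⟩⟩
      singleton_mem := fun v => ⟨Finset.singleton_nonempty v, Or.inl ⟨v, rfl⟩⟩ }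
  smul_mem := by
    rintro x s ⟨hs, hs'⟩
    refine ⟨by simpa using hs, ?_⟩
    rcases hs' with ⟨v, rfl⟩ | ⟨i, hi, c, hc, h, hh⟩ | ⟨h1, h2⟩ | ⟨h, h', a, i, hi, hh⟩
    · left
      exact ⟨x • v, by rw [Finset.map_singleton]; rfl⟩
    · right; left
      refine ⟨i, hi, c, hc, x * h, fun v hv => ?_⟩
      rw [Finset.mem_map] at hv
      obtain ⟨v', hv', rfl⟩ := hv
      obtain ⟨t, ht, rfl⟩ := hh v' hv'
      exact ⟨t, ht, smul_wv _ _ _ _ _ _ _⟩
    · right; right; left
      refine ⟨fun v hv => ?_, fun v hv w hw hvw => ?_⟩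
      · rw [Finset.mem_map] at hv
        obtain ⟨v', hv', rfl⟩ := hv
        exact h1 v' hv'
      · rw [Finset.mem_map] at hv hw
        obtain ⟨v', hv', rfl⟩ := hv
        obtain ⟨w', hw', rfl⟩ := hw
        rw [h2 v' hv' w' hw' hvw]
    · right; right; right
      refine ⟨x * h, x * h', a, i, hi, fun v hv => ?_⟩
      rw [Finset.mem_map] at hv
      obtain ⟨v', hv', rfl⟩ := hv
      rcases hh v' hv' with rfl | rfl
      · exact Or.inl rfl
      · exact Or.inr rfl

variable [Fintype G]

/-- A face contains at most one vertex for each label. -/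
lemma lab_inj {q m n : ℕ} {g : G} {s : Finset (LV G (Lab q (n + 1) m))}
    (hs : s ∈ (KC q m n g).K.faces) {v w : LV G (Lab q (n + 1) m)} (hv : v ∈ s) (hw : w ∈ s)
    (h : v.lab = w.lab) : v = w := by
  rcases hs.2 with ⟨x, rfl⟩ | ⟨i, hi, c, hc, h', hh⟩ | ⟨h1, h2⟩ | ⟨h1, h2, a, i, hi, hh⟩
  · rw [Finset.mem_singleton] at hv hw; rw [hv, hw]
  · obtain ⟨t, ht, rfl⟩ := hh v hv
    obtain ⟨t', ht', rfl⟩ := hh w hw
    have : t = t' := window_inj (Nat.succ_pos n) hc ht ht' (Sum.inl_injective h)
    rw [this]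
  · exact h2 v hv w hw h
  · rcases hh v hv with rfl | rfl <;> rcases hh w hw with rfl | rfl <;> first | rfl | simp at h

lemma KC_free_vertex {q m n : ℕ} {g : G} {s : Finset (LV G (Lab q (n + 1) m))}
    (hs : s ∈ (KC q m n g).K.faces) {x : G} {v : LV G (Lab q (n + 1) m)} (hv : v ∈ s)
    (hw : x • v ∈ s) : x = 1 := by
  have h1 : x • v = v := lab_inj hs hw hv rfl
  have h2 : x * v.elt = v.elt := congrArg LV.elt h1
  exact mul_eq_right.mp h2

lemma KC_isFree (q m n : ℕ) (g : G) : (KC q m n g).IsFree := by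
  intro x p hp
  obtain ⟨s, hs, hsupp⟩ := p.support_subset
  obtain ⟨v, hv⟩ : ∃ v, p.coord v ≠ 0 := by
    by_contra h
    push Not at h
    have := p.sum_eq_one
    rw [Finset.sum_eq_zero fun v _ => h v] at this
    exact zero_ne_one this
  have h2 : p.coord (x • v) = p.coord v := by
    have : (x • p).coord (x • v) = p.coord v := by
      change p.coord (x⁻¹ • x • v) = p.coord v
      rw [inv_smul_smul]
    rw [← this, hp]
  exact KC_free_vertex hs (hsupp v hv) (hsupp (x • v) (by rw [h2]; exact hv))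

lemma KC_card_le {q m n : ℕ} (hmn : m ≤ n) (hn : 1 ≤ n) {g : G} {s : Finset (LV G (Lab q (n + 1) m))}
    (hs : s ∈ (KC q m n g).K.faces) : s.card ≤ n + 1 := by
  classical
  rcases hs.2 with ⟨x, rfl⟩ | ⟨i, hi, c, hc, h', hh⟩ | ⟨h1, h2⟩ | ⟨h1, h2, a, i, hi, hh⟩
  · simp
  · have : s ⊆ (Finset.range (i + 1)).image (wv (n + 1) m g h' c) := by
      intro v hv
      obtain ⟨t, ht, rfl⟩ := hh v hv
      exact Finset.mem_image_of_mem _ (Finset.mem_range.mpr (by omega))
    calc s.card ≤ _ := Finset.card_le_card this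
      _ ≤ (Finset.range (i + 1)).card := Finset.card_image_le
      _ = i + 1 := Finset.card_range _
      _ ≤ n + 1 := by omega
  · have := Finset.card_le_card_of_injOn (s := s)
      (t := (Finset.univ : Finset (Fin (m + 1))).image
        (fun i => (Sum.inr i : Lab q (n + 1) m))) (fun v => v.lab)
      (fun v hv => by
        obtain ⟨i, hi⟩ := h1 v hv
        simp only [hi]
        exact Finset.mem_coe.mpr (Finset.mem_image_of_mem _ (Finset.mem_univ i)))
      (fun v hv w hw hvw => h2 v hv w hw hvw)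
    refine this.trans (Finset.card_image_le.trans ?_)
    simp only [Finset.card_univ, Fintype.card_fin]
    omega
  · have : s ⊆ {(⟨h1, Sum.inl a⟩ : LV G (Lab q (n + 1) m)), ⟨h2, Sum.inr i⟩} := by
      intro v hv
      rw [Finset.mem_insert, Finset.mem_singleton]
      exact hh v hv
    refine (Finset.card_le_card this).trans (Finset.card_le_two.trans ?_)
    omega

omit [Fintype G] in
/-- a free action admits an equivariant map to the group -/
lemma exists_equivariant_of_free {P : Type u} [MulAction G P] (hfree : ∀ (g : G) (p : P),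
    g • p = p → g = 1) : ∃ γ : P → G, ∀ (g : G) (p : P), γ (g • p) = g * γ p := by
  classical
  have h : ∀ p : P, ∃ x : G, x • (Quotient.out (Quotient.mk (MulAction.orbitRel G P) p)) = p := by
    intro p
    obtain ⟨x, hx⟩ := MulAction.orbitRel_apply.mp ((MulAction.orbitRel G P).symm
      (Quotient.mk_out (s := MulAction.orbitRel G P) p))
    exact ⟨x, hx⟩
  choose γ hγ using h
  refine ⟨γ, fun g p => ?_⟩
  have h1 : Quotient.mk (MulAction.orbitRel G P) (g • p) =
      Quotient.mk (MulAction.orbitRel G P) p :=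
    Quotient.sound (MulAction.orbitRel_apply.mpr ⟨g, rfl⟩)
  have h2 := hγ (g • p)
  rw [h1] at h2
  have h3 : g • p = (g * γ p) • Quotient.out (Quotient.mk (MulAction.orbitRel G P) p) := by
    rw [mul_smul, hγ]
  have h4 := hfree ((g * γ p)⁻¹ * γ (g • p))
    (Quotient.out (Quotient.mk (MulAction.orbitRel G P) p)) (by
      rw [mul_smul, h2, h3, inv_smul_smul])
  rw [inv_mul_eq_one] at h4
  exact h4.symm

lemma Xind_le {q m n : ℕ} (hmn : m ≤ n) (hn : 1 ≤ n) (g : G) :
    ∃ f : (KC q m n g).FacePoset → Q G n, Monotone f ∧ ∀ (x : G) p, f (x • p) = x • f p := by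
  classical
  obtain ⟨γ, hγ⟩ := exists_equivariant_of_free (G := G) (P := (KC q m n g).FacePoset) (by
    intro x p hp
    obtain ⟨v, hv⟩ := p.mem.1
    refine KC_free_vertex p.mem hv ?_
    have h1 : x • v ∈ (x • p).face := by
      change x • v ∈ p.face.map (MulAction.toPerm x).toEmbedding
      exact Finset.mem_map_of_mem _ hv
    rwa [hp] at h1)
  have hcard : ∀ p : (KC q m n g).FacePoset, p.face.card - 1 < n + 1 := by
    intro p
    have : p.face.card ≤ n + 1 := KC_card_le hmn hn p.mem
    omega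
  refine ⟨fun p => ⟨γ p, ⟨p.face.card - 1, hcard p⟩⟩, ?_, ?_⟩
  · intro p p' hpp
    by_cases h : p = p'
    · left; rw [h]
    · right
      have h1 : p.face ⊂ p'.face := by
        refine lt_of_le_of_ne (show p.face ≤ p'.face from hpp) fun h' => ?_
        exact h (GComplex.FacePoset.ext h')
      have h2 := Finset.card_lt_card h1
      have h3 : 0 < p.face.card := Finset.card_pos.mpr p.mem.1
      change p.face.card - 1 < p'.face.card - 1
      omega
  · intro x p
    refine Q.ext (hγ x p) (Fin.ext ?_)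
    change (p.face.map (MulAction.toPerm x).toEmbedding).card - 1 = p.face.card - 1
    rw [Finset.card_map]

/-! ### The lower bound for the cross-index -/

/-- interval simplices -/
noncomputable def sig (q N m : ℕ) (g : G) (i : ℕ) (c : ℕ → Fin q) :
    Finset (LV G (Lab q N m)) := by
  classical
  exact (Finset.range (i + 1)).image (wv N m g 1 c)

omit [Fintype G] in
lemma mem_sig {q N m : ℕ} {g : G} {i : ℕ} {c : ℕ → Fin q} {v : LV G (Lab q N m)} :
    v ∈ sig q N m g i c ↔ ∃ t ≤ i, wv N m g 1 c t = v := by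
  classical
  rw [sig, Finset.mem_image]
  constructor
  · rintro ⟨t, ht, h⟩; exact ⟨t, by rw [Finset.mem_range] at ht; omega, h⟩
  · rintro ⟨t, ht, h⟩; exact ⟨t, by rw [Finset.mem_range]; omega, h⟩

lemma sig_mem {q m n : ℕ} {g : G} {i : ℕ} (hi : i ≤ n) {c : ℕ → Fin q}
    (hc : Mono (n + 1 + i) c) : sig q (n + 1) m g i c ∈ (KC q m n g).K.faces :=
  ⟨⟨_, mem_sig.mpr ⟨0, Nat.zero_le i, rfl⟩⟩, Or.inr (Or.inl ⟨i, hi, c, hc, 1, fun v hv => by
    obtain ⟨t, ht, h⟩ := mem_sig.mp hv
    exact ⟨t, ht, h.symm⟩⟩)⟩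

omit [Fintype G] in
lemma sig_congr {q N m : ℕ} {g : G} {i : ℕ} {c c' : ℕ → Fin q} (h : ∀ a < N + i, c a = c' a) :
    sig q N m g i c = sig q N m g i c' := by
  ext v
  rw [mem_sig, mem_sig]
  constructor
  · rintro ⟨t, ht, h1⟩
    refine ⟨t, ht, ?_⟩
    rw [← h1, wv, wv, window_congr h ht]
  · rintro ⟨t, ht, h1⟩
    refine ⟨t, ht, ?_⟩
    rw [← h1, wv, wv, window_congr h ht]

omit [Fintype G] in
lemma sig_subset {q N m : ℕ} {g : G} {i : ℕ} {c : ℕ → Fin q} :
    sig q N m g i c ⊆ sig q N m g (i + 1) c := by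
  intro v hv
  obtain ⟨t, ht, h⟩ := mem_sig.mp hv
  exact mem_sig.mpr ⟨t, by omega, h⟩

omit [Fintype G] in
lemma sig_shift {q N m : ℕ} {g : G} {i : ℕ} {c : ℕ → Fin q} :
    (sig q N m g i (shiftS c)).map (MulAction.toPerm g).toEmbedding ⊆ sig q N m g (i + 1) c := by
  intro v hv
  rw [Finset.mem_map] at hv
  obtain ⟨v', hv', rfl⟩ := hv
  obtain ⟨t, ht, rfl⟩ := mem_sig.mp hv'
  refine mem_sig.mpr ⟨t + 1, by omega, ?_⟩
  change wv N m g 1 c (t + 1) = g • wv N m g 1 (shiftS c) t
  rw [smul_wv]
  refine LV.ext ?_ ?_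
  · change 1 * g ^ (t + 1) = g * 1 * g ^ t
    rw [pow_succ', one_mul, mul_one]
  · change Sum.inl (window N c (t + 1)) = Sum.inl (window N (shiftS c) t)
    rw [window_shift]

/-- There is `q` such that no order preserving equivariant map to `Q_k G` with `k < n` exists. -/
theorem exists_q (n : ℕ) (g : G) (hg : g ≠ 1) : ∃ q : ℕ, ∀ m k : ℕ, k < n →
    ∀ f : (KC q m n g).FacePoset → Q G k, Monotone f →
      (∀ (x : G) p, f (x • p) = x • f p) → False := by
  classical
  cases n with
  | zero => exact ⟨0, fun m k hk => absurd hk (Nat.not_lt_zero k)⟩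
  | succ n =>
  -- we use the shift graph on sequences of length `(n + 1) + 1 + n`
  obtain ⟨q, hq⟩ := shift_graph (n + 1 + n) (Fintype.card (Fin (n + 1) × Fin (Fintype.card G)))
  refine ⟨q, fun m k hk f hf hfe => ?_⟩
  set F : ℕ → (ℕ → Fin q) → Q G k := fun i c =>
    if h : sig q (n + 1 + 1) m g i c ∈ (KC q m (n + 1) g).K.faces then f ⟨_, h⟩ else ⟨1, 0⟩ with hF
  have hFdep : ∀ i, DependsOnFirst (n + 1 + 1 + i) (F i) := by
    intro i c c' hcc
    simp only [hF]
    rw [sig_congr hcc]
  have hF1 : ∀ i c, i + 1 ≤ n + 1 → Mono (n + 1 + 1 + (i + 1)) c → F i c ≤ F (i + 1) c := by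
    intro i c hi hc
    have h1 := sig_mem (m := m) (g := g) (by omega : i ≤ n + 1) (hc.mono (by omega))
    have h2 := sig_mem (m := m) (g := g) hi hc
    simp only [hF]
    rw [dif_pos h1, dif_pos h2]
    exact hf (show sig q (n + 1 + 1) m g i c ≤ sig q (n + 1 + 1) m g (i + 1) c from sig_subset)
  have hF2 : ∀ i c, i + 1 ≤ n + 1 → Mono (n + 1 + 1 + (i + 1)) c →
      g • F i (shiftS c) ≤ F (i + 1) c := by
    intro i c hi hc
    have h1 := sig_mem (m := m) (g := g) (by omega : i ≤ n + 1)
      (c := shiftS c) (Mono.shift (r := n + 1 + 1 + i) hc)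
    have h2 := sig_mem (m := m) (g := g) hi hc
    simp only [hF]
    rw [dif_pos h1, dif_pos h2, ← hfe]
    exact hf (show (sig q (n + 1 + 1) m g i (shiftS c)).map (MulAction.toPerm g).toEmbedding ≤
      sig q (n + 1 + 1) m g (i + 1) c from sig_shift)
  have hgne : ∀ a b : Q G k, a = g • b → a.elt ≠ b.elt := by
    intro a b hab h
    have : a.elt = g * b.elt := congrArg Q.elt hab
    rw [h] at this
    exact hg (mul_eq_right.mp this.symm)
  -- the inductive construction of colourings
  have key : ∀ t : ℕ, t ≤ n → ∃ κ : (ℕ → Fin q) → ℕ × G, DependsOnFirst (n + 1 + 1 + t) κ ∧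
      (∀ c, (κ c).1 ≤ t) ∧ ∀ c, Mono (n + 1 + 1 + (t + 1)) c → ((F (t + 1) c).lev : ℕ) ≤ t →
        κ c ≠ κ (shiftS c) := by
    intro t
    induction t with
    | zero =>
      intro _
      refine ⟨fun c => (0, (F 0 c).elt), ?_, fun _ => le_refl 0, ?_⟩
      · intro c c' hcc
        simp only
        rw [hFdep 0 c c' hcc]
      · intro c hc hlev heq
        have h1 := hF1 0 c (by omega) hc
        have h2 := hF2 0 c (by omega) hc
        have h1' : F 0 c = F (0 + 1) c := by
          rcases h1 with h | h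
          · exact h
          · have : ((F 0 c).lev : ℕ) < ((F (0 + 1) c).lev : ℕ) := h
            omega
        have h2' : g • F 0 (shiftS c) = F (0 + 1) c := by
          rcases h2 with h | h
          · exact h
          · have : ((g • F 0 (shiftS c)).lev : ℕ) < ((F (0 + 1) c).lev : ℕ) := h
            omega
        exact hgne _ _ (h1'.trans h2'.symm) (congrArg Prod.snd heq)
    | succ t ih =>
      intro ht
      obtain ⟨κ, hκ1, hκ2, hκ3⟩ := ih (by omega)
      refine ⟨fun c => if ((F (t + 1) c).lev : ℕ) ≤ t then κ c else (t + 1, (F (t + 1) c).elt),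
        ?_, ?_, ?_⟩
      · intro c c' hcc
        simp only
        rw [hFdep (t + 1) c c' hcc, hκ1 c c' fun a ha => hcc a (by omega)]
      · intro c
        by_cases h : ((F (t + 1) c).lev : ℕ) ≤ t
        · simp only [h, if_true]; exact (hκ2 c).trans (Nat.le_succ t)
        · simp only [h, if_false]; exact le_refl _
      · intro c hc hlev heq
        simp only at heq
        have h1 := hF1 (t + 1) c (by omega) hc
        have h2 := hF2 (t + 1) c (by omega) hc
        by_cases ha : ((F (t + 1) c).lev : ℕ) ≤ t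
        · by_cases hb : ((F (t + 1) (shiftS c)).lev : ℕ) ≤ t
          · rw [if_pos ha, if_pos hb] at heq
            exact hκ3 c (hc.mono (by omega)) ha heq
          · rw [if_pos ha, if_neg hb] at heq
            have := hκ2 c
            rw [heq] at this
            simp at this
        · by_cases hb : ((F (t + 1) (shiftS c)).lev : ℕ) ≤ t
          · rw [if_neg ha, if_pos hb] at heq
            have := hκ2 (shiftS c)
            rw [← heq] at this
            simp at this
          · rw [if_neg ha, if_neg hb] at heq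
            have h1' : F (t + 1) c = F (t + 1 + 1) c := by
              rcases h1 with h | h
              · exact h
              · have : ((F (t + 1) c).lev : ℕ) < ((F (t + 1 + 1) c).lev : ℕ) := h
                omega
            have h2' : g • F (t + 1) (shiftS c) = F (t + 1 + 1) c := by
              rcases h2 with h | h
              · exact h
              · have h3 : ((g • F (t + 1) (shiftS c)).lev : ℕ) < ((F (t + 1 + 1) c).lev : ℕ) := h
                have h4 : ((g • F (t + 1) (shiftS c)).lev : ℕ) =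
                  ((F (t + 1) (shiftS c)).lev : ℕ) := rfl
                omega
            exact hgne _ _ (h1'.trans h2'.symm) (congrArg Prod.snd heq)
  obtain ⟨κ, hκ1, hκ2, hκ3⟩ := key n (le_refl n)
  obtain ⟨c, hc, hcc⟩ := hq (Fin (n + 1) × Fin (Fintype.card G)) (le_refl _)
    (fun c => (⟨(κ c).1, Nat.lt_succ_of_le (hκ2 c)⟩, Fintype.equivFin G (κ c).2)) (by
      intro c c' h
      have := hκ1 c c' fun a ha => h a (by omega)
      simp only [this])
  refine hκ3 c (hc.mono (by omega)) ?_ ?_
  · have := (F (n + 1) c).lev.2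
    omega
  · have h1 := congrArg Prod.fst hcc
    have h2 := congrArg Prod.snd hcc
    simp only [Fin.mk.injEq] at h1
    exact Prod.ext h1 ((Fintype.equivFin G).injective h2)

end

end Pool.Agent.Helper73_CrossIndex
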