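import Pool.Agent.Helper73_CrossIndex.IndLe

/-!
# Connectedness of the complex
-/

universe u

namespace Pool.Agent.Helper73_CrossIndex

variable {G : Type u} [Group G]

/-- points in a common closed face are joined by a path -/
lemma joined_of_face (X : GComplex G) (x y : X.Realization) {s : Finset X.V}
    (hs : s ∈ X.K.faces) (hx : ∀ v, x.coord v ≠ 0 → v ∈ s) (hy : ∀ v, y.coord v ≠ 0 → v ∈ s) :
    Joined x y := by
  let γ : unitInterval → X.Realization := fun t =>
    { coord := fun v => (1 - (t : ℝ)) * x.coord v + (t : ℝ) * y.coord v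
      nonneg := fun v => add_nonneg
        (mul_nonneg (by linarith [t.2.2]) (x.nonneg v)) (mul_nonneg t.2.1 (y.nonneg v))
      sum_eq_one := by
        rw [Finset.sum_add_distrib, ← Finset.mul_sum, ← Finset.mul_sum, x.sum_eq_one,
          y.sum_eq_one]
        ring
      support_subset := ⟨s, hs, fun v hv => by
        by_contra h
        have h1 : x.coord v = 0 := by
          by_contra h'
          exact h (hx v h')
        have h2 : y.coord v = 0 := by
          by_contra h'
          exact h (hy v h')
        exact hv (by rw [h1, h2]; ring)⟩ }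
  refine ⟨⟨⟨γ, ?_⟩, ?_, ?_⟩⟩
  · refine continuous_induced_rng.mpr (continuous_pi fun v => ?_)
    change Continuous fun t : unitInterval => (1 - (t : ℝ)) * x.coord v + (t : ℝ) * y.coord v
    fun_prop
  · refine GComplex.Realization.ext (funext fun v => ?_)
    change (1 - ((0 : unitInterval) : ℝ)) * x.coord v + ((0 : unitInterval) : ℝ) * y.coord v = _
    simp
  · refine GComplex.Realization.ext (funext fun v => ?_)
    change (1 - ((1 : unitInterval) : ℝ)) * x.coord v + ((1 : unitInterval) : ℝ) * y.coord v = _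
    simp

open Classical in
/-- the point of the realisation given by a vertex -/
noncomputable def vpt (X : GComplex G) (v : X.V) : X.Realization where
  coord := Pi.single v 1
  nonneg w := by
    by_cases h : w = v
    · subst h; simp
    · rw [Pi.single_eq_of_ne h]
  sum_eq_one := by
    rw [Finset.sum_eq_single v]
    · exact Pi.single_eq_same _ _
    · intro w _ hw; exact Pi.single_eq_of_ne hw _
    · intro h; exact absurd (Finset.mem_univ _) h
  support_subset := ⟨{v}, X.K.singleton_mem v, fun w hw => by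
    rw [Finset.mem_singleton]
    by_contra h
    exact hw (Pi.single_eq_of_ne h _)⟩

lemma vpt_supp (X : GComplex G) (v w : X.V) (h : (vpt X v).coord w ≠ 0) : w = v := by
  classical
  by_contra hne
  exact h (Pi.single_eq_of_ne hne _)

lemma joined_vpt (X : GComplex G) {v w : X.V} {s : Finset X.V} (hs : s ∈ X.K.faces)
    (hv : v ∈ s) (hw : w ∈ s) : Joined (vpt X v) (vpt X w) :=
  joined_of_face X _ _ hs (fun u hu => by rw [vpt_supp X v u hu]; exact hv)
    (fun u hu => by rw [vpt_supp X w u hu]; exact hw)

/-- a complex whose vertices are all joined to a root is path connected -/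
lemma pathConnected_of_root (X : GComplex G) (r : X.V)
    (h : ∀ v, Joined (vpt X v) (vpt X r)) : PathConnectedSpace X.Realization := by
  have key : ∀ x : X.Realization, Joined x (vpt X r) := by
    intro x
    obtain ⟨s, hs, hsupp⟩ := x.support_subset
    obtain ⟨v, hv⟩ := (X.K.isRelLowerSet_faces hs).1
    exact (joined_of_face X x (vpt X v) hs hsupp
      (fun u hu => by rw [vpt_supp X v u hu]; exact hv)).trans (h v)
  exact ⟨⟨vpt X r⟩, fun x y => (key x).trans (key y).symm⟩

variable [Fintype G]

open Classical in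
/-- a two-element set of vertices -/
noncomputable def pair {L : Type} (a b : LV G L) : Finset (LV G L) := {a, b}

omit [Group G] [Fintype G] in
lemma mem_pair {L : Type} {a b v : LV G L} : v ∈ pair a b ↔ v = a ∨ v = b := by
  classical
  rw [pair, Finset.mem_insert, Finset.mem_singleton]

theorem KC_connected (q m n : ℕ) (hm : 1 ≤ m) (g : G) :
    ConnectedSpace (KC q m n g).Realization := by
  classical
  obtain ⟨m, rfl⟩ : ∃ m', m = m' + 1 := ⟨m - 1, by omega⟩
  set r : LV G (Lab q (n + 1) (m + 1)) := ⟨1, Sum.inr 1⟩ with hr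
  have hbar : ∀ (h h' : G) (i j : Fin (m + 1 + 1)), i ≠ j →
      pair (⟨h, Sum.inr i⟩ : LV G (Lab q (n + 1) (m + 1))) ⟨h', Sum.inr j⟩ ∈
        (KC q (m + 1) n g).K.faces := by
    intro h h' i j hij
    refine ⟨⟨_, mem_pair.mpr (Or.inl rfl)⟩, Or.inr (Or.inr (Or.inl ⟨?_, ?_⟩))⟩
    · intro v hv
      rcases mem_pair.mp hv with rfl | rfl
      · exact ⟨i, rfl⟩
      · exact ⟨j, rfl⟩
    · intro v hv w hw hvw
      rcases mem_pair.mp hv with rfl | rfl <;> rcases mem_pair.mp hw with rfl | rfl
      · rfl
      · exact absurd (Sum.inr_injective hvw) hij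
      · exact absurd (Sum.inr_injective hvw).symm hij
      · rfl
  have hlink : ∀ (h h' : G) (a : Fin (n + 1) → Fin q) (i : Fin (m + 1 + 1)), (i : ℕ) ≠ 0 →
      pair (⟨h, Sum.inl a⟩ : LV G (Lab q (n + 1) (m + 1))) ⟨h', Sum.inr i⟩ ∈
        (KC q (m + 1) n g).K.faces := by
    intro h h' a i hi
    exact ⟨⟨_, mem_pair.mpr (Or.inl rfl)⟩,
      Or.inr (Or.inr (Or.inr ⟨h, h', a, i, hi, fun v hv => mem_pair.mp hv⟩))⟩
  have h01 : (0 : Fin (m + 1 + 1)) ≠ 1 := by simp
  have hp : PathConnectedSpace (KC q (m + 1) n g).Realization := by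
    refine pathConnected_of_root (KC q (m + 1) n g) r fun v => ?_
    obtain ⟨h, l⟩ := (v : LV G (Lab q (n + 1) (m + 1)))
    cases l with
    | inl a =>
      exact joined_vpt (KC q (m + 1) n g) (hlink h 1 a 1 (by simp)) (mem_pair.mpr (Or.inl rfl))
        (mem_pair.mpr (Or.inr rfl))
    | inr i =>
      by_cases hi : i = 1
      · subst hi
        refine Joined.trans (y := vpt (KC q (m + 1) n g)
          (⟨1, Sum.inr 0⟩ : LV G (Lab q (n + 1) (m + 1)))) ?_ ?_
        · exact joined_vpt (KC q (m + 1) n g) (hbar h 1 1 0 h01.symm)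
            (mem_pair.mpr (Or.inl rfl)) (mem_pair.mpr (Or.inr rfl))
        · exact joined_vpt (KC q (m + 1) n g) (hbar 1 1 0 1 h01)
            (mem_pair.mpr (Or.inl rfl)) (mem_pair.mpr (Or.inr rfl))
      · exact joined_vpt (KC q (m + 1) n g) (hbar h 1 i 1 hi)
          (mem_pair.mpr (Or.inl rfl)) (mem_pair.mpr (Or.inr rfl))
  infer_instance

end Pool.Agent.Helper73_CrossIndex
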