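import Pool.Agent.Helper73_CrossIndex.Maps

/-!
# The equivariant map from the complex to `E_m G`
-/

universe u

namespace Pool.Agent.Helper73_CrossIndex

variable {G : Type u} [Group G] [Fintype G]

section

variable {q m n : ℕ}

/-- displacement of a vertex relative to a window -/
def dspV (a : Fin (n + 1) → Fin q) (l : Lab q (n + 1) m) : ℝ :=
  match l with
  | Sum.inl b => (Dsp a b : ℤ)
  | Sum.inr _ => 0

/-- relative position -/
noncomputable def uu (x : LV G (Lab q (n + 1) m) → ℝ) (a : Fin (n + 1) → Fin q) : ℝ :=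
  ∑ w, x w * dspV a w.lab

open Classical in
/-- local contribution -/
noncomputable def contr (g : G) (x : LV G (Lab q (n + 1) m) → ℝ) (y : G) (r : ℝ)
    (v : LV G (Lab q (n + 1) m)) : ℝ :=
  match v.lab with
  | Sum.inl a => ∑ j ∈ Finset.Icc (-(n + 1 : ℤ)) (n + 1),
      if v.elt * g ^ j = y then tent (uu x a - j - r) else 0
  | Sum.inr _ => 0

/-- the coordinates on one join factor -/
noncomputable def TT (g : G) (x : LV G (Lab q (n + 1) m) → ℝ) (y : G) (r : ℝ) : ℝ :=
  ∑ v, x v * contr g x y r v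

/-- the coordinates of the image point -/
noncomputable def FF (g : G) (x : LV G (Lab q (n + 1) m) → ℝ) (y : G) (i : Fin (m + 1)) : ℝ :=
  (if (i : ℕ) = 0 then TT g x y 0 else if (i : ℕ) = 1 then TT g x y (1 / 2) else 0) +
    x ⟨y, Sum.inr i⟩

omit [Group G] in
lemma continuous_uu (a : Fin (n + 1) → Fin q) :
    Continuous fun x : LV G (Lab q (n + 1) m) → ℝ => uu x a := by
  unfold uu
  exact continuous_finsetSum _ fun w _ => (continuous_apply w).mul continuous_const

lemma continuous_contr (g y : G) (r : ℝ) (v : LV G (Lab q (n + 1) m)) :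
    Continuous fun x : LV G (Lab q (n + 1) m) → ℝ => contr g x y r v := by
  obtain ⟨e, l⟩ := v
  cases l with
  | inl a =>
    simp only [contr]
    refine continuous_finsetSum _ fun j _ => ?_
    split_ifs
    · exact continuous_tent.comp (((continuous_uu a).sub continuous_const).sub continuous_const)
    · exact continuous_const
  | inr a => exact continuous_const

lemma continuous_TT (g y : G) (r : ℝ) :
    Continuous fun x : LV G (Lab q (n + 1) m) → ℝ => TT g x y r := by
  unfold TT
  exact continuous_finsetSum _ fun w _ => (continuous_apply w).mul (continuous_contr g y r w)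

lemma continuous_FF (g y : G) (i : Fin (m + 1)) :
    Continuous fun x : LV G (Lab q (n + 1) m) → ℝ => FF g x y i := by
  unfold FF
  refine Continuous.add ?_ (continuous_apply _)
  split_ifs
  · exact continuous_TT g y 0
  · exact continuous_TT g y (1 / 2)
  · exact continuous_const

/-! ### equivariance -/

lemma uu_smul (z : G) (x : LV G (Lab q (n + 1) m) → ℝ) (a : Fin (n + 1) → Fin q) :
    uu (fun v => x (z⁻¹ • v)) a = uu x a := by
  unfold uu
  rw [← Equiv.sum_comp (MulAction.toPerm z)]
  refine Finset.sum_congr rfl fun v _ => ?_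
  simp only [MulAction.toPerm_apply, inv_smul_smul]
  rfl

lemma contr_smul (g z : G) (x : LV G (Lab q (n + 1) m) → ℝ) (y : G) (r : ℝ)
    (v : LV G (Lab q (n + 1) m)) :
    contr g (fun v => x (z⁻¹ • v)) y r (z • v) = contr g x (z⁻¹ * y) r v := by
  classical
  obtain ⟨e, l⟩ := v
  cases l with
  | inl a =>
    change (∑ j ∈ Finset.Icc (-(n + 1 : ℤ)) (n + 1),
      if z * e * g ^ j = y then tent (uu (fun v => x (z⁻¹ • v)) a - j - r) else 0) =
      ∑ j ∈ Finset.Icc (-(n + 1 : ℤ)) (n + 1),
      if e * g ^ j = z⁻¹ * y then tent (uu x a - j - r) else 0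
    refine Finset.sum_congr rfl fun j _ => ?_
    rw [uu_smul]
    congr 1
    exact propext (by rw [eq_inv_mul_iff_mul_eq, mul_assoc])
  | inr a => rfl

lemma TT_smul (g z : G) (x : LV G (Lab q (n + 1) m) → ℝ) (y : G) (r : ℝ) :
    TT g (fun v => x (z⁻¹ • v)) y r = TT g x (z⁻¹ * y) r := by
  unfold TT
  rw [← Equiv.sum_comp (MulAction.toPerm z)]
  refine Finset.sum_congr rfl fun v _ => ?_
  simp only [MulAction.toPerm_apply, inv_smul_smul, contr_smul]

lemma FF_smul (g z : G) (x : LV G (Lab q (n + 1) m) → ℝ) (y : G) (i : Fin (m + 1)) :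
    FF g (fun v => x (z⁻¹ • v)) y i = FF g x (z⁻¹ * y) i := by
  unfold FF
  rw [TT_smul, TT_smul]
  rfl

/-! ### evaluation on a frame -/

/-- `x` is supported on a simplex given by a frame -/
def Frame (g : G) (x : LV G (Lab q (n + 1) m) → ℝ) : Prop :=
  ∃ i ≤ n, ∃ (a : ℕ → Fin (n + 1) → Fin q) (h : G),
    (∀ s ≤ i, ∀ t ≤ i, Dsp (a s) (a t) = (t : ℤ) - s) ∧
    ∀ v, x v ≠ 0 → ∃ t ≤ i, v = ⟨h * g ^ t, Sum.inl (a t)⟩

open Classical in
lemma frame_eval (g : G) (x : LV G (Lab q (n + 1) m) → ℝ) (hx : Frame g x)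
    (h0 : ∀ v, 0 ≤ x v) (h1 : ∑ v, x v = 1) :
    ∃ (h : G) (U : ℝ), ∀ (r : ℝ), (r = 0 ∨ r = 1 / 2) → ∀ y,
      TT g x y r = if h * g ^ (near U r) = y then tent (U - near U r - r) else 0 := by
  classical
  obtain ⟨i, hi, a, h, hD, hsupp⟩ := hx
  set vt : ℕ → LV G (Lab q (n + 1) m) := fun t => ⟨h * g ^ t, Sum.inl (a t)⟩ with hvt
  have hinj : Set.InjOn vt (Finset.range (i + 1)) := by
    intro s hs t ht hst
    rw [Finset.coe_range, Set.mem_Iio] at hs ht
    have h2 : a s = a t := Sum.inl_injective (congrArg LV.lab hst)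
    have h3 := hD s (by omega) t (by omega)
    rw [h2, Dsp_self] at h3
    omega
  -- sums over the vertices reduce to sums over the frame
  have hred : ∀ Φ : LV G (Lab q (n + 1) m) → ℝ,
      ∑ v, x v * Φ v = ∑ t ∈ Finset.range (i + 1), x (vt t) * Φ (vt t) := by
    intro Φ
    rw [← Finset.sum_image (f := fun v => x v * Φ v) hinj]
    symm
    refine Finset.sum_subset (Finset.subset_univ _) fun v _ hv => ?_
    have : x v = 0 := by
      by_contra hne
      obtain ⟨t, ht, hvt'⟩ := hsupp v hne
      exact hv (Finset.mem_image.mpr ⟨t, Finset.mem_range.mpr (by omega), hvt'.symm⟩)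
    rw [this, zero_mul]
  have hone : ∑ t ∈ Finset.range (i + 1), x (vt t) = 1 := by
    have := hred (fun _ => 1)
    simp only [mul_one] at this
    rw [← this, h1]
  set U : ℝ := ∑ t ∈ Finset.range (i + 1), x (vt t) * t with hU
  have hU0 : 0 ≤ U := Finset.sum_nonneg fun t _ => mul_nonneg (h0 _) (Nat.cast_nonneg t)
  have hUn : U ≤ n := by
    calc U ≤ ∑ t ∈ Finset.range (i + 1), x (vt t) * n := by
          refine Finset.sum_le_sum fun t ht => mul_le_mul_of_nonneg_left ?_ (h0 _)
          rw [Finset.mem_range] at ht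
          exact_mod_cast (by omega : t ≤ n)
      _ = n := by rw [← Finset.sum_mul, hone, one_mul]
  have huu : ∀ s ≤ i, uu x (a s) = U - s := by
    intro s hs
    unfold uu
    rw [hred (fun w => dspV (a s) w.lab)]
    have : ∀ t ∈ Finset.range (i + 1), x (vt t) * dspV (a s) (vt t).lab =
        x (vt t) * t - x (vt t) * s := by
      intro t ht
      rw [Finset.mem_range] at ht
      change x (vt t) * ((Dsp (a s) (a t) : ℤ) : ℝ) = _
      rw [hD s hs t (by omega)]
      push_cast
      ring
    rw [Finset.sum_congr rfl this, Finset.sum_sub_distrib, ← Finset.sum_mul, hone, one_mul]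
  refine ⟨h, U, fun r hr y => ?_⟩
  have hr0 : 0 ≤ r ∧ r ≤ 1 / 2 := by rcases hr with rfl | rfl <;> norm_num
  have hJ0 : 0 ≤ near U r := by
    unfold near
    rw [Int.le_floor]
    push_cast
    linarith [hr0.2]
  have hJn : near U r ≤ n := by
    unfold near
    rw [← Int.lt_add_one_iff, Int.floor_lt]
    push_cast
    linarith [hr0.1]
  unfold TT
  rw [hred (fun v => contr g x y r v)]
  have hterm : ∀ s ∈ Finset.range (i + 1), x (vt s) * contr g x y r (vt s) =
      x (vt s) * (if h * g ^ (near U r) = y then tent (U - near U r - r) else 0) := by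
    intro s hs
    rw [Finset.mem_range] at hs
    congr 1
    change (∑ j ∈ Finset.Icc (-(n + 1 : ℤ)) (n + 1),
      if h * g ^ s * g ^ j = y then tent (uu x (a s) - j - r) else 0) = _
    rw [huu s (by omega)]
    have hns := near_sub U r s
    have hmem : near (U - s) r ∈ Finset.Icc (-(n + 1 : ℤ)) (n + 1) := by
      rw [hns, Finset.mem_Icc]
      constructor <;> omega
    rw [tent_sum (U - s) r (fun j => h * g ^ s * g ^ j = y) (n + 1) hmem, hns]
    have e1 : h * g ^ s * g ^ (near U r - s) = h * g ^ near U r := by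
      rw [mul_assoc, ← zpow_natCast, ← zpow_add]
      congr 2
      omega
    have e2 : U - s - ((near U r - s : ℤ) : ℝ) - r = U - near U r - r := by
      push_cast
      ring
    rw [e1, e2]
  rw [Finset.sum_congr rfl hterm, ← Finset.sum_mul, hone, one_mul]

omit [Group G] in
lemma sum_EVertex {M : Type*} [AddCommMonoid M] {k : ℕ} (f : EVertex G k → M) :
    ∑ v, f v = ∑ i : Fin (k + 1), ∑ y : G, f ⟨y, i⟩ := by
  rw [← Equiv.sum_comp (EVertex.equiv G k).symm, Fintype.sum_prod_type_right]
  rfl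

/-- the image point lies in the realisation of `E_m G`, frame case -/
lemma FF_mem_frame (hm : 1 ≤ m) (g : G) (x : LV G (Lab q (n + 1) m) → ℝ) (hx : Frame g x)
    (h0 : ∀ v, 0 ≤ x v) (h1 : ∑ v, x v = 1) :
    (∀ w : EVertex G m, 0 ≤ FF g x w.elt w.lev) ∧ ∑ w : EVertex G m, FF g x w.elt w.lev = 1 ∧
      ∃ s ∈ (E G m).K.faces, ∀ w : EVertex G m, FF g x w.elt w.lev ≠ 0 → w ∈ s := by
  classical
  obtain ⟨h, U, hT⟩ := frame_eval g x hx h0 h1
  have hbar : ∀ (y : G) (i : Fin (m + 1)), x ⟨y, Sum.inr i⟩ = 0 := by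
    intro y i
    by_contra hne
    obtain ⟨j, hj, a, h', hD, hsupp⟩ := hx
    obtain ⟨t, ht, hv⟩ := hsupp _ hne
    have := congrArg LV.lab hv
    simp at this
  have hF : ∀ (y : G) (i : Fin (m + 1)), FF g x y i =
      if (i : ℕ) = 0 then (if h * g ^ (near U 0) = y then tent (U - near U 0 - 0) else 0)
      else if (i : ℕ) = 1 then
        (if h * g ^ (near U (1 / 2)) = y then tent (U - near U (1 / 2) - 1 / 2) else 0)
      else 0 := by
    intro y i
    unfold FF
    rw [hbar, add_zero, hT 0 (Or.inl rfl), hT (1 / 2) (Or.inr rfl)]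
  have hsum : ∑ w : EVertex G m, FF g x w.elt w.lev = 1 := by
    rw [sum_EVertex]
    simp only [hF]
    obtain ⟨m', rfl⟩ : ∃ m', m = m' + 1 := ⟨m - 1, by omega⟩
    rw [Fin.sum_univ_succ, Fin.sum_univ_succ]
    have e : ∀ i : Fin m', (i.succ.succ : Fin (m' + 1 + 1)).val ≠ 0 ∧
        (i.succ.succ : Fin (m' + 1 + 1)).val ≠ 1 := by
      intro i
      simp only [Fin.val_succ]
      omega
    have e1 : ((0 : Fin (m' + 1)).succ : Fin (m' + 1 + 1)).val = 1 := by simp
    have e0 : (0 : Fin (m' + 1 + 1)).val = 0 := rfl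
    simp only [e0, e1, (e _).1, (e _).2, if_true, if_false, Finset.sum_const_zero, add_zero,
      one_ne_zero, Finset.sum_ite_eq, Finset.mem_univ]
    exact tent_total U
  refine ⟨fun w => ?_, hsum, ?_⟩
  · rw [hF]
    split_ifs <;> first | exact tent_nonneg _ | exact le_refl _
  · refine ⟨Finset.univ.filter fun w : EVertex G m => FF g x w.elt w.lev ≠ 0, ⟨?_, ?_⟩, ?_⟩
    · obtain ⟨w, -, hw⟩ := Finset.exists_ne_zero_of_sum_ne_zero (hsum.trans_ne one_ne_zero)
      exact ⟨w, Finset.mem_filter.mpr ⟨Finset.mem_univ w, hw⟩⟩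
    · intro v hv w hw hvw
      have hv' : FF g x v.elt v.lev ≠ 0 := (Finset.mem_filter.mp hv).2
      have hw' : FF g x w.elt w.lev ≠ 0 := (Finset.mem_filter.mp hw).2
      rw [hF] at hv' hw'
      rw [hvw] at hv'
      refine EVertex.ext ?_ hvw
      by_cases c0 : (w.lev : ℕ) = 0
      · simp only [c0, if_true] at hv' hw'
        have h2 := (ite_ne_right_iff.mp hv').1
        have h3 := (ite_ne_right_iff.mp hw').1
        rw [← h2, ← h3]
      · by_cases c1 : (w.lev : ℕ) = 1
        · simp only [c1, if_true, one_ne_zero, if_false] at hv' hw'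
          have h2 := (ite_ne_right_iff.mp hv').1
          have h3 := (ite_ne_right_iff.mp hw').1
          rw [← h2, ← h3]
        · simp only [c0, c1, if_false] at hv'
          exact absurd rfl hv'
    · intro w hw
      exact Finset.mem_filter.mpr ⟨Finset.mem_univ w, hw⟩

/-- the image point lies in the realisation of `E_m G`, bar case -/
lemma FF_mem_bar (g : G) (x : LV G (Lab q (n + 1) m) → ℝ)
    (hx : ∃ s : Finset (LV G (Lab q (n + 1) m)), IsBar q (n + 1) m s ∧ ∀ v, x v ≠ 0 → v ∈ s)
    (h0 : ∀ v, 0 ≤ x v) (h1 : ∑ v, x v = 1) :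
    (∀ w : EVertex G m, 0 ≤ FF g x w.elt w.lev) ∧ ∑ w : EVertex G m, FF g x w.elt w.lev = 1 ∧
      ∃ s ∈ (E G m).K.faces, ∀ w : EVertex G m, FF g x w.elt w.lev ≠ 0 → w ∈ s := by
  classical
  obtain ⟨s, ⟨hs1, hs2⟩, hsupp⟩ := hx
  have hinl : ∀ (y : G) (a : Fin (n + 1) → Fin q), x ⟨y, Sum.inl a⟩ = 0 := by
    intro y a
    by_contra hne
    obtain ⟨i, hi⟩ := hs1 _ (hsupp _ hne)
    simp at hi
  have hT : ∀ y r, TT g x y r = 0 := by
    intro y r
    unfold TT
    refine Finset.sum_eq_zero fun v _ => ?_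
    obtain ⟨e, l⟩ := v
    cases l with
    | inl a => rw [hinl, zero_mul]
    | inr a => exact mul_zero _
  have hF : ∀ (y : G) (i : Fin (m + 1)), FF g x y i = x ⟨y, Sum.inr i⟩ := by
    intro y i
    unfold FF
    rw [hT, hT, ite_self, ite_self, zero_add]
  have hsum : ∑ w : EVertex G m, FF g x w.elt w.lev = 1 := by
    rw [← h1]
    simp only [hF]
    rw [← Equiv.sum_comp (LV.equiv G (Lab q (n + 1) m)).symm, Fintype.sum_prod_type_right,
      Fintype.sum_sum_type, sum_EVertex]
    have e : ∑ a : Fin (n + 1) → Fin q, ∑ y : G,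
        x ((LV.equiv G (Lab q (n + 1) m)).symm (y, Sum.inl a)) = 0 :=
      Finset.sum_eq_zero fun a _ => Finset.sum_eq_zero fun y _ => hinl y a
    rw [e, zero_add]
    rfl
  refine ⟨fun w => ?_, hsum, ?_⟩
  · rw [hF]; exact h0 _
  · refine ⟨Finset.univ.filter fun w : EVertex G m => FF g x w.elt w.lev ≠ 0, ⟨?_, ?_⟩, ?_⟩
    · obtain ⟨w, -, hw⟩ := Finset.exists_ne_zero_of_sum_ne_zero (hsum.trans_ne one_ne_zero)
      exact ⟨w, Finset.mem_filter.mpr ⟨Finset.mem_univ w, hw⟩⟩
    · intro v hv w hw hvw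
      have hv' : FF g x v.elt v.lev ≠ 0 := (Finset.mem_filter.mp hv).2
      have hw' : FF g x w.elt w.lev ≠ 0 := (Finset.mem_filter.mp hw).2
      rw [hF] at hv' hw'
      have := hs2 _ (hsupp _ hv') _ (hsupp _ hw') (by simp only; rw [hvw])
      exact EVertex.ext (congrArg LV.elt this) hvw
    · intro w hw
      exact Finset.mem_filter.mpr ⟨Finset.mem_univ w, hw⟩

open Classical in
/-- the image point lies in the realisation of `E_m G`, link case -/
lemma FF_mem_link (g : G) (x : LV G (Lab q (n + 1) m) → ℝ) (h h' : G)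
    (a : Fin (n + 1) → Fin q) (i : Fin (m + 1)) (hi : (i : ℕ) ≠ 0)
    (hx : ∀ v, x v ≠ 0 → v = ⟨h, Sum.inl a⟩ ∨ v = ⟨h', Sum.inr i⟩)
    (h0 : ∀ v, 0 ≤ x v) (h1 : ∑ v, x v = 1) :
    (∀ w : EVertex G m, 0 ≤ FF g x w.elt w.lev) ∧ ∑ w : EVertex G m, FF g x w.elt w.lev = 1 ∧
      ∃ s ∈ (E G m).K.faces, ∀ w : EVertex G m, FF g x w.elt w.lev ≠ 0 → w ∈ s := by
  have hz : ∀ v, ¬ (v = ⟨h, Sum.inl a⟩ ∨ v = ⟨h', Sum.inr i⟩) → x v = 0 := by
    intro v hv
    by_contra hne
    exact hv (hx v hne)
  have huu : uu x a = 0 := by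
    unfold uu
    refine Finset.sum_eq_zero fun w _ => ?_
    by_cases hw : w = ⟨h, Sum.inl a⟩ ∨ w = ⟨h', Sum.inr i⟩
    · rcases hw with rfl | rfl
      · have : dspV (m := m) a (Sum.inl a) = 0 := by
          simp [dspV, Dsp_self]
        rw [this, mul_zero]
      · exact mul_zero _
    · rw [hz w hw, zero_mul]
  have hcon : ∀ y r, (r = 0 ∨ r = 1 / 2) → contr g x y r ⟨h, Sum.inl a⟩ =
      if h = y then tent (-r) else 0 := by
    intro y r hr
    change (∑ j ∈ Finset.Icc (-(n + 1 : ℤ)) (n + 1),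
      if h * g ^ j = y then tent (uu x a - j - r) else 0) = _
    rw [huu]
    have hn0 : near 0 r = 0 := by
      unfold near
      rcases hr with rfl | rfl <;> norm_num
    rw [tent_sum 0 r (fun j => h * g ^ j = y) (n + 1) (by
      rw [hn0, Finset.mem_Icc]; constructor <;> omega), hn0]
    simp
  have hTT : ∀ y r, (r = 0 ∨ r = 1 / 2) → TT g x y r =
      x ⟨h, Sum.inl a⟩ * if h = y then tent (-r) else 0 := by
    intro y r hr
    unfold TT
    rw [Finset.sum_eq_single (⟨h, Sum.inl a⟩ : LV G (Lab q (n + 1) m)), hcon y r hr]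
    · intro v _ hv
      by_cases hw : v = ⟨h', Sum.inr i⟩
      · rw [hw]; exact mul_zero _
      · rw [hz v (by rintro (h | h); exacts [hv h, hw h]), zero_mul]
    · intro hcon; exact absurd (Finset.mem_univ _) hcon
  have ht0 : tent (-0) = 1 := by unfold tent; simp
  have ht1 : tent (-(1 / 2)) = 0 := tent_eq_zero (by rw [abs_neg, abs_of_nonneg] <;> norm_num)
  have hF : ∀ (y : G) (j : Fin (m + 1)), FF g x y j =
      (if (j : ℕ) = 0 then (if h = y then x ⟨h, Sum.inl a⟩ else 0) else 0) +
        x ⟨y, Sum.inr j⟩ := by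
    intro y j
    unfold FF
    rw [hTT y 0 (Or.inl rfl), hTT y (1 / 2) (Or.inr rfl), ht0, ht1]
    congr 1
    split_ifs <;> simp
  have hsum : ∑ w : EVertex G m, FF g x w.elt w.lev = 1 := by
    rw [← h1]
    simp only [hF]
    rw [← Equiv.sum_comp (LV.equiv G (Lab q (n + 1) m)).symm, Fintype.sum_prod_type_right,
      Fintype.sum_sum_type, sum_EVertex]
    simp only [Finset.sum_add_distrib]
    congr 1
    have e : ∑ b : Fin (n + 1) → Fin q, ∑ y : G,
        x ((LV.equiv G (Lab q (n + 1) m)).symm (y, Sum.inl b)) = x ⟨h, Sum.inl a⟩ := by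
      rw [Finset.sum_eq_single a, Finset.sum_eq_single h]
      · rfl
      · intro y _ hy
        refine hz _ ?_
        rintro (h2 | h2)
        · exact hy (congrArg LV.elt h2)
        · have := congrArg LV.lab h2
          simp [LV.equiv] at this
      · intro hcon; exact absurd (Finset.mem_univ _) hcon
      · intro b _ hb
        refine Finset.sum_eq_zero fun y _ => hz _ ?_
        rintro (h2 | h2)
        · exact hb (Sum.inl_injective (congrArg LV.lab h2))
        · have := congrArg LV.lab h2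
          simp [LV.equiv] at this
      · intro hcon; exact absurd (Finset.mem_univ _) hcon
    rw [e, Fin.sum_univ_succ]
    simp
  refine ⟨fun w => ?_, hsum, ?_⟩
  · rw [hF]
    refine add_nonneg ?_ (h0 _)
    split_ifs <;> first | exact h0 _ | exact le_refl _
  · refine ⟨Finset.univ.filter fun w : EVertex G m => FF g x w.elt w.lev ≠ 0, ⟨?_, ?_⟩, ?_⟩
    · obtain ⟨w, -, hw⟩ := Finset.exists_ne_zero_of_sum_ne_zero (hsum.trans_ne one_ne_zero)
      exact ⟨w, Finset.mem_filter.mpr ⟨Finset.mem_univ w, hw⟩⟩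
    · have key : ∀ v : EVertex G m, FF g x v.elt v.lev ≠ 0 →
          v = ⟨h, 0⟩ ∨ v = ⟨h', i⟩ := by
        intro v hv
        rw [hF] at hv
        by_cases c0 : (v.lev : ℕ) = 0
        · have hx0 : x ⟨v.elt, Sum.inr v.lev⟩ = 0 := by
            refine hz _ ?_
            rintro (h2 | h2)
            · have := congrArg LV.lab h2
              simp at this
            · have := Sum.inr_injective (congrArg LV.lab h2)
              exact hi (by rw [← this]; exact c0)
          rw [hx0, add_zero] at hv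
          simp only [c0, if_true] at hv
          have h2 := (ite_ne_right_iff.mp hv).1
          left
          exact EVertex.ext h2.symm (Fin.ext c0)
        · simp only [c0, if_false, zero_add] at hv
          rcases hx _ hv with h2 | h2
          · have := congrArg LV.lab h2
            simp at this
          · right
            exact EVertex.ext (congrArg LV.elt h2) (Sum.inr_injective (congrArg LV.lab h2))
      intro v hv w hw hvw
      have hv' := key v (Finset.mem_filter.mp hv).2
      have hw' := key w (Finset.mem_filter.mp hw).2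
      rcases hv' with rfl | rfl <;> rcases hw' with rfl | rfl
      · rfl
      · exact absurd (congrArg Fin.val hvw).symm hi
      · exact absurd (congrArg Fin.val hvw) hi
      · rfl
    · intro w hw
      exact Finset.mem_filter.mpr ⟨Finset.mem_univ w, hw⟩

end

/-- The mapping index of the complex is at most `m`. -/
theorem KC_to_E (q m n : ℕ) (hm : 1 ≤ m) (g : G) :
    ∃ f : (KC q m n g).Realization → (E G m).Realization,
      Continuous f ∧ ∀ (x : G) y, f (x • y) = x • f y := by
  classical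
  have hmem : ∀ x : (KC q m n g).Realization,
      (∀ w : EVertex G m, 0 ≤ FF g x.coord w.elt w.lev) ∧
      ∑ w : EVertex G m, FF g x.coord w.elt w.lev = 1 ∧
      ∃ s ∈ (E G m).K.faces, ∀ w : EVertex G m, FF g x.coord w.elt w.lev ≠ 0 → w ∈ s := by
    intro x
    obtain ⟨s, hs, hsupp⟩ := x.support_subset
    rcases hs.2 with ⟨v, rfl⟩ | ⟨i, hi, c, hc, h, hh⟩ | hbar | ⟨h, h', a, i, hi, hh⟩
    · obtain ⟨e, l⟩ := v
      cases l with
      | inl a =>
        refine FF_mem_frame hm g x.coord ⟨0, Nat.zero_le n, fun _ => a, e, ?_, ?_⟩ x.nonneg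
          x.sum_eq_one
        · intro s hs t ht
          have : s = 0 := by omega
          have : t = 0 := by omega
          subst s; subst t
          rw [Dsp_self]; simp
        · intro v hv
          refine ⟨0, le_refl 0, ?_⟩
          have := Finset.mem_singleton.mp (hsupp v hv)
          rw [this, pow_zero, mul_one]
      | inr a =>
        refine FF_mem_bar g x.coord ⟨_, ⟨?_, ?_⟩, hsupp⟩ x.nonneg x.sum_eq_one
        · intro v hv
          rw [Finset.mem_singleton] at hv
          exact ⟨a, by rw [hv]⟩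
        · intro v hv w hw _
          rw [Finset.mem_singleton] at hv hw
          rw [hv, hw]
    · refine FF_mem_frame hm g x.coord ⟨i, hi, fun t => window (n + 1) c t, h, ?_, ?_⟩ x.nonneg
        x.sum_eq_one
      · intro s hs t ht
        exact Dsp_window hc hi hs ht
      · intro v hv
        exact hh v (hsupp v hv)
    · exact FF_mem_bar g x.coord ⟨s, hbar, hsupp⟩ x.nonneg x.sum_eq_one
    · exact FF_mem_link g x.coord h h' a i hi (fun v hv => hh v (hsupp v hv)) x.nonneg
        x.sum_eq_one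
  refine ⟨fun x => ⟨fun w : EVertex G m => FF g x.coord w.elt w.lev, (hmem x).1, (hmem x).2.1,
    (hmem x).2.2⟩, ?_, ?_⟩
  · refine continuous_induced_rng.mpr (continuous_pi fun w : EVertex G m => ?_)
    exact (continuous_FF g w.elt w.lev).comp (continuous_coord (KC q m n g))
  · intro z x
    refine GComplex.Realization.ext (funext fun w : EVertex G m => ?_)
    exact FF_smul g z x.coord w.elt w.lev

end Pool.Agent.Helper73_CrossIndex
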