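import Pool.Agent.Helper73_CrossIndex.Complex

/-!
# Equivariant maps between realisations
-/

universe u

namespace Pool.Agent.Helper73_CrossIndex

section Simplicial

variable {G : Type u} [Group G]

/-- An equivariant simplicial map induces a continuous equivariant map. -/
theorem exists_map_of_simplicial (X Y : GComplex G) (π : X.V → Y.V)
    (hπ : ∀ (g : G) v, π (g • v) = g • π v)
    (hf : ∀ s ∈ X.K.faces, ∃ t ∈ Y.K.faces, ∀ v ∈ s, π v ∈ t) :
    ∃ f : X.Realization → Y.Realization, Continuous f ∧ ∀ (g : G) x, f (g • x) = g • f x := by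
  classical
  have hnn : ∀ (x : X.Realization) (w : Y.V), 0 ≤ ∑ v, if π v = w then x.coord v else 0 := by
    intro x w
    refine Finset.sum_nonneg fun v _ => ?_
    split_ifs
    · exact x.nonneg v
    · exact le_refl _
  have hsum : ∀ (x : X.Realization), ∑ w, (∑ v, if π v = w then x.coord v else 0) = 1 := by
    intro x
    rw [Finset.sum_comm, ← x.sum_eq_one]
    refine Finset.sum_congr rfl fun v _ => ?_
    rw [Finset.sum_ite_eq]
    simp
  have hsupp : ∀ (x : X.Realization), ∃ s ∈ Y.K.faces, ∀ w,
      (∑ v, if π v = w then x.coord v else 0) ≠ 0 → w ∈ s := by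
    intro x
    obtain ⟨s, hs, h1⟩ := x.support_subset
    obtain ⟨t, ht, h2⟩ := hf s hs
    refine ⟨t, ht, fun w hw => ?_⟩
    obtain ⟨v, -, hv⟩ := Finset.exists_ne_zero_of_sum_ne_zero hw
    by_cases h : π v = w
    · rw [if_pos h] at hv
      rw [← h]
      exact h2 v (h1 v hv)
    · rw [if_neg h] at hv
      exact absurd rfl hv
  refine ⟨fun x => ⟨fun w => ∑ v, if π v = w then x.coord v else 0, hnn x, hsum x, hsupp x⟩,
    ?_, ?_⟩
  · refine continuous_induced_rng.mpr (continuous_pi fun w => ?_)
    change Continuous fun x : X.Realization => ∑ v, if π v = w then x.coord v else 0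
    refine continuous_finsetSum _ fun v _ => ?_
    by_cases h : π v = w
    · simp only [h, if_true]
      exact (continuous_apply v).comp (continuous_coord X)
    · simp only [h, if_false]
      exact continuous_const
  · intro g x
    refine GComplex.Realization.ext (funext fun w => ?_)
    change (∑ v, if π v = w then x.coord (g⁻¹ • v) else 0) =
      ∑ v, if π v = g⁻¹ • w then x.coord v else 0
    rw [← Equiv.sum_comp (MulAction.toPerm g)]
    refine Finset.sum_congr rfl fun v _ => ?_
    simp only [MulAction.toPerm_apply, inv_smul_smul, hπ]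
    congr 1
    exact propext (by rw [eq_inv_smul_iff])

variable [Fintype G]

lemma E_inclusion {k l : ℕ} (h : k ≤ l) :
    ∃ f : (E G k).Realization → (E G l).Realization,
      Continuous f ∧ ∀ (g : G) x, f (g • x) = g • f x := by
  classical
  refine exists_map_of_simplicial (E G k) (E G l)
    (fun v : EVertex G k => (⟨v.elt, Fin.castLE (Nat.succ_le_succ h) v.lev⟩ : EVertex G l))
    (fun g v => rfl) fun s hs => ?_
  refine ⟨s.image (fun v : EVertex G k =>
    (⟨v.elt, Fin.castLE (Nat.succ_le_succ h) v.lev⟩ : EVertex G l)), ⟨?_, ?_⟩, ?_⟩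
  · exact hs.1.image _
  · intro v hv w hw hvw
    obtain ⟨v', hv', rfl⟩ := Finset.mem_image.mp hv
    obtain ⟨w', hw', rfl⟩ := Finset.mem_image.mp hw
    have : v' = w' := hs.2 v' hv' w' hw' (Fin.castLE_injective (Nat.succ_le_succ h) hvw)
    rw [this]
  · intro v hv
    exact Finset.mem_image_of_mem _ hv

/-- no equivariant map `E_m G → E_k G` for `k < m` -/
theorem no_equivariant_map_lt [Nontrivial G] {k m : ℕ} (h : k < m)
    (f : (E G m).Realization → (E G k).Realization) (hf : Continuous f)
    (hg : ∀ (g : G) x, f (g • x) = g • f x) : False := by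
  obtain ⟨m, rfl⟩ : ∃ m', m = m' + 1 := ⟨m - 1, by omega⟩
  obtain ⟨i, hi, hi'⟩ := E_inclusion (G := G) (Nat.lt_succ_iff.mp h)
  exact no_equivariant_map m (fun x => i (f x)) (hi.comp hf) fun g x => by rw [hg, hi']

lemma E_to_KC (q m n : ℕ) (g : G) :
    ∃ f : (E G m).Realization → (KC q m n g).Realization,
      Continuous f ∧ ∀ (x : G) y, f (x • y) = x • f y := by
  classical
  refine exists_map_of_simplicial (E G m) (KC q m n g)
    (fun v : EVertex G m => (⟨v.elt, Sum.inr v.lev⟩ : LV G (Lab q (n + 1) m)))
    (fun g v => rfl) fun s hs => ?_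
  refine ⟨s.image (fun v : EVertex G m => (⟨v.elt, Sum.inr v.lev⟩ : LV G (Lab q (n + 1) m))),
    ⟨?_, ?_⟩, ?_⟩
  · exact hs.1.image _
  · right; right; left
    refine ⟨fun v hv => ?_, fun v hv w hw hvw => ?_⟩
    · obtain ⟨v', hv', rfl⟩ := Finset.mem_image.mp hv
      exact ⟨v'.lev, rfl⟩
    · obtain ⟨v', hv', rfl⟩ := Finset.mem_image.mp hv
      obtain ⟨w', hw', rfl⟩ := Finset.mem_image.mp hw
      have : v' = w' := hs.2 v' hv' w' hw' (Sum.inr_injective hvw)
      rw [this]
  · intro v hv
    exact Finset.mem_image_of_mem _ hv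

end Simplicial

/-! ## Displacement of windows -/

section Disp

/-- displacement of two windows -/
def Dsp {q n : ℕ} (a b : Fin (n + 1) → Fin q) : ℤ :=
  ((Finset.univ.filter fun j => a j < b 0).card : ℤ) -
    ((Finset.univ.filter fun j => b j < a 0).card : ℤ)

lemma Dsp_self {q n : ℕ} (a : Fin (n + 1) → Fin q) : Dsp a a = 0 := sub_self _

lemma Dsp_comm {q n : ℕ} (a b : Fin (n + 1) → Fin q) : Dsp a b = - Dsp b a := by
  simp only [Dsp]; ring

lemma Dsp_window_le {q n i s t : ℕ} {c : ℕ → Fin q} (hc : Mono (n + 1 + i) c) (hi : i ≤ n)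
    (hst : s ≤ t) (ht : t ≤ i) :
    Dsp (window (n + 1) c s) (window (n + 1) c t) = (t : ℤ) - s := by
  have h1 : (Finset.univ.filter fun j : Fin (n + 1) => window (n + 1) c s j <
      window (n + 1) c t 0) = Finset.univ.filter fun j : Fin (n + 1) => (j : ℕ) < t - s := by
    refine Finset.filter_congr fun j _ => ?_
    have hj := j.2
    simp only [window, Fin.val_zero, add_zero]
    constructor
    · intro h
      by_contra hcon
      have : t ≤ s + j := by omega
      rcases this.eq_or_lt with h' | h'
      · rw [h'] at h; exact lt_irrefl _ h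
      · exact lt_asymm h (hc t (s + j) h' (by omega))
    · intro h
      exact hc (s + j) t (by omega) (by omega)
  have h2 : (Finset.univ.filter fun j : Fin (n + 1) => window (n + 1) c t j <
      window (n + 1) c s 0) = ∅ := by
    refine Finset.filter_eq_empty_iff.mpr fun j _ => ?_
    have hj := j.2
    simp only [window, Fin.val_zero, add_zero]
    intro h
    have : s ≤ t + j := by omega
    rcases this.eq_or_lt with h' | h'
    · rw [← h'] at h; exact lt_irrefl _ h
    · exact lt_asymm h (hc s (t + j) h' (by omega))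
  have h3 : (Finset.univ.filter fun j : Fin (n + 1) => (j : ℕ) < t - s).card = t - s := by
    rw [Fin.card_filter_val_lt]
    omega
  rw [Dsp, h1, h2, h3, Finset.card_empty]
  push_cast [Nat.cast_sub hst]
  ring

lemma Dsp_window {q n i s t : ℕ} {c : ℕ → Fin q} (hc : Mono (n + 1 + i) c) (hi : i ≤ n)
    (hs : s ≤ i) (ht : t ≤ i) :
    Dsp (window (n + 1) c s) (window (n + 1) c t) = (t : ℤ) - s := by
  rcases le_total s t with h | h
  · exact Dsp_window_le hc hi h ht
  · rw [Dsp_comm, Dsp_window_le hc hi h hs]
    ring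

end Disp

/-! ## Tent functions -/

section Tent

/-- tent function -/
noncomputable def tent (z : ℝ) : ℝ := max 0 (1 - 2 * |z|)

lemma tent_nonneg (z : ℝ) : 0 ≤ tent z := le_max_left _ _

lemma continuous_tent : Continuous tent := by
  unfold tent
  fun_prop

lemma tent_eq_zero {z : ℝ} (h : 1 / 2 ≤ |z|) : tent z = 0 := by
  unfold tent
  rw [max_eq_left]
  linarith

/-- the integer `j` nearest to `u - r` -/
noncomputable def near (u r : ℝ) : ℤ := ⌊u - r + 1 / 2⌋

lemma tent_sum (u r : ℝ) (φ : ℤ → Prop) [DecidablePred φ] (M : ℤ)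
    (hJ : near u r ∈ Finset.Icc (-M) M) :
    (∑ j ∈ Finset.Icc (-M) M, if φ j then tent (u - j - r) else 0) =
      if φ (near u r) then tent (u - near u r - r) else 0 := by
  rw [Finset.sum_eq_single (near u r)]
  · intro j _ hj
    have : tent (u - j - r) = 0 := by
      apply tent_eq_zero
      by_contra hlt
      push Not at hlt
      rw [abs_lt] at hlt
      apply hj
      unfold near
      symm
      rw [Int.floor_eq_iff]
      constructor <;> linarith [hlt.1, hlt.2]
    rw [this, ite_self]
  · intro h; exact absurd hJ h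

lemma near_sub (u r : ℝ) (s : ℕ) : near (u - s) r = near u r - s := by
  unfold near
  rw [show u - s - r + 1 / 2 = (u - r + 1 / 2) - (s : ℕ) by ring]
  exact Int.floor_sub_natCast _ _

lemma tent_total (u : ℝ) :
    tent (u - near u 0 - 0) + tent (u - near u (1 / 2) - 1 / 2) = 1 := by
  have h1 : near u (1 / 2) = ⌊u⌋ := by unfold near; congr 1; ring
  have h2 := Int.floor_le u
  have h3 := Int.lt_floor_add_one u
  rw [h1]
  by_cases h : u < ⌊u⌋ + 1 / 2
  · have h4 : near u 0 = ⌊u⌋ := by
      unfold near
      rw [Int.floor_eq_iff]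
      constructor <;> linarith
    rw [h4]
    unfold tent
    rw [sub_zero, abs_of_nonneg (by linarith : (0 : ℝ) ≤ u - ⌊u⌋),
      abs_of_nonpos (by linarith : u - ⌊u⌋ - 1 / 2 ≤ (0 : ℝ)),
      max_eq_right (by linarith), max_eq_right (by linarith)]
    ring
  · push Not at h
    have h4 : near u 0 = ⌊u⌋ + 1 := by
      unfold near
      rw [Int.floor_eq_iff]
      push_cast
      constructor <;> linarith
    rw [h4]
    unfold tent
    push_cast
    rw [sub_zero, abs_of_nonpos (by linarith : u - (⌊u⌋ + 1) ≤ (0 : ℝ)),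
      abs_of_nonneg (by linarith : (0 : ℝ) ≤ u - ⌊u⌋ - 1 / 2),
      max_eq_right (by linarith), max_eq_right (by linarith)]
    ring

end Tent

end Pool.Agent.Helper73_CrossIndex
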