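import Mathlib

/-!
# Shift graphs have large chromatic number
-/

namespace Pool.Agent.Helper73_CrossIndex

/-- the first `r` entries are strictly increasing -/
def Mono {q : ℕ} (r : ℕ) (c : ℕ → Fin q) : Prop := ∀ a b, a < b → b < r → c a < c b

/-- shift of a sequence -/
def shiftS {q : ℕ} (c : ℕ → Fin q) : ℕ → Fin q := fun a => c (a + 1)

lemma Mono.mono {q r s : ℕ} {c : ℕ → Fin q} (h : Mono s c) (hrs : r ≤ s) : Mono r c :=
  fun a b hab hb => h a b hab (hb.trans_le hrs)

lemma Mono.shift {q r : ℕ} {c : ℕ → Fin q} (h : Mono (r + 1) c) : Mono r (shiftS c) :=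
  fun a b hab hb => h (a + 1) (b + 1) (Nat.succ_lt_succ hab) (Nat.succ_lt_succ hb)

/-- `κ c` depends only on the first `r` entries of `c` -/
def DependsOnFirst {q : ℕ} {C : Type*} (r : ℕ) (κ : (ℕ → Fin q) → C) : Prop :=
  ∀ c c' : ℕ → Fin q, (∀ a < r, c a = c' a) → κ c = κ c'

/-- For every number of colours `M` and every `r ≥ 1` there is `q` such that the shift graph on
the increasing `r`-sequences in `Fin q` has no proper colouring with `M` colours. -/
theorem shift_graph (r : ℕ) : ∀ M : ℕ, ∃ q : ℕ, ∀ (C : Type) [Fintype C], Fintype.card C ≤ M →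
    ∀ κ : (ℕ → Fin q) → C, DependsOnFirst (r + 1) κ →
      ∃ c : ℕ → Fin q, Mono (r + 2) c ∧ κ c = κ (shiftS c) := by
  induction r with
  | zero =>
    intro M
    refine ⟨M + 1, fun C _ hC κ hκ => ?_⟩
    obtain ⟨x, y, hxy, hk⟩ := Fintype.exists_ne_map_eq_of_card_lt
      (fun x : Fin (M + 1) => κ (fun _ => x)) (by rw [Fintype.card_fin]; omega)
    wlog hlt : x < y generalizing x y
    · exact this y x hxy.symm hk.symm (lt_of_le_of_ne (not_lt.mp hlt) hxy.symm)
    refine ⟨fun a => if a = 0 then x else y, ?_, ?_⟩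
    · intro a b hab hb
      have ha : a = 0 := by omega
      have hb' : b ≠ 0 := by omega
      simp only [ha, hb', if_true, if_false]
      exact hlt
    · have e1 : κ (fun a => if a = 0 then x else y) = κ (fun _ => x) := hκ _ _ fun a ha => by
        have : a = 0 := by omega
        simp [this]
      have e2 : κ (shiftS fun a => if a = 0 then x else y) = κ (fun _ => y) := hκ _ _ fun a ha => by
        simp [shiftS]
      rw [e1, e2]
      exact hk
  | succ r ih =>
    intro M
    obtain ⟨q, hq⟩ := ih (2 ^ M)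
    refine ⟨q, fun C _ hC κ hκ => ?_⟩
    classical
    set κ' : (ℕ → Fin q) → Set C := fun c =>
      {x | ∃ d : ℕ → Fin q, (∀ a < r + 1, d a = c a) ∧ Mono (r + 2) d ∧ κ d = x} with hκ'
    have hdep : DependsOnFirst (r + 1) κ' := by
      intro c c' hcc
      ext x
      constructor
      · rintro ⟨d, h1, h2, h3⟩
        exact ⟨d, fun a ha => (h1 a ha).trans (hcc a ha), h2, h3⟩
      · rintro ⟨d, h1, h2, h3⟩
        exact ⟨d, fun a ha => (h1 a ha).trans (hcc a ha).symm, h2, h3⟩
    obtain ⟨c, hc, hcc⟩ := hq (Set C) (by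
      rw [Fintype.card_set]
      exact Nat.pow_le_pow_right (by norm_num) hC) κ' hdep
    have h1 : κ c ∈ κ' c := ⟨c, fun _ _ => rfl, hc, rfl⟩
    rw [hcc] at h1
    obtain ⟨d, hd1, hd2, hd3⟩ := h1
    refine ⟨fun a => if a = 0 then c 0 else d (a - 1), ?_, ?_⟩
    · intro a b hab hb
      have hb' : b ≠ 0 := by omega
      by_cases ha : a = 0
      · simp only [ha, hb', if_true, if_false]
        have h2 : c 0 < d 0 := by
          rw [hd1 0 (Nat.succ_pos r)]
          exact hc 0 1 Nat.zero_lt_one (by omega)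
        by_cases hb1 : b - 1 = 0
        · rw [hb1]; exact h2
        · exact h2.trans (hd2 0 (b - 1) (Nat.pos_of_ne_zero hb1) (by omega))
      · simp only [ha, hb', if_false]
        exact hd2 (a - 1) (b - 1) (by omega) (by omega)
    · have e1 : κ (fun a => if a = 0 then c 0 else d (a - 1)) = κ c := hκ _ _ fun a ha => by
        by_cases h0 : a = 0
        · simp [h0]
        · simp only [h0, if_false]
          rw [hd1 (a - 1) (by omega)]
          simp only [shiftS]
          congr 1
          omega
      have e2 : shiftS (fun a => if a = 0 then c 0 else d (a - 1)) = d := by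
        funext a
        simp [shiftS]
      rw [e1, e2, hd3]

end Pool.Agent.Helper73_CrossIndex
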