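import Pool.Agent.Helper73_CrossIndex.Chains

/-!
# Barycentric subdivision of ordered affine chains
-/

universe u v

namespace Pool.Agent.Helper73_CrossIndex

open Finsupp (single mapDomain)

section Bary

variable {E : Type v} [AddCommGroup E] [Module ℝ E]

/-- barycenter of a list of points -/
noncomputable def bary (l : List E) : E := ((l.length : ℝ))⁻¹ • l.sum

lemma bary_map (A : E →ₗ[ℝ] E) (l : List E) : bary (l.map A) = A (bary l) := by
  simp only [bary, List.length_map, map_smul]
  congr 1
  induction l with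
  | nil => simp
  | cons a l ih => simp [ih]

lemma bary_mem {C : Set E} (hC : Convex ℝ C) : (l : List E) → l ≠ [] → (∀ x ∈ l, x ∈ C) →
    bary l ∈ C
  | [], h, _ => absurd rfl h
  | [a], _, h => by
    have := h a (by simp)
    simpa [bary] using this
  | a :: b :: l, _, h => by
    have ih := bary_mem hC (b :: l) (by simp) (fun x hx => h x (List.mem_cons_of_mem _ hx))
    have ha := h a (by simp)
    set m : ℕ := (b :: l).length with hm
    have hmpos : (0 : ℝ) < m := by
      rw [hm]; simp only [List.length_cons]; positivity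
    have key : bary (a :: b :: l) = (1 / ((m : ℝ) + 1)) • a + ((m : ℝ) / (m + 1)) • bary (b :: l) := by
      have e1 : (a :: b :: l).length = m + 1 := rfl
      rw [bary, e1, List.sum_cons]
      rw [bary, ← hm, smul_smul]
      have e2 : (m : ℝ) / (m + 1) * (m : ℝ)⁻¹ = ((m : ℝ) + 1)⁻¹ := by
        field_simp
      rw [e2]
      push_cast
      rw [smul_add, one_div]
    rw [key]
    refine hC ha ih (by positivity) (by positivity) ?_
    field_simp
    ring

/-- subdivision of a list of length at most `k` (fuel `k`) -/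
noncomputable def sdN : ℕ → List E → Ch E
  | 0, l => single l 1
  | k + 1, l => consL (bary l) (Finsupp.linearCombination ℤ (sdN k) (dl l))

/-- barycentric subdivision of a list -/
noncomputable def sdl (l : List E) : Ch E := sdN l.length l

/-- barycentric subdivision -/
noncomputable def sdL : Ch E →ₗ[ℤ] Ch E := Finsupp.linearCombination ℤ sdl

@[simp] lemma sdL_single (l : List E) (c : ℤ) : sdL (single l c) = c • sdl l := by
  simp [sdL, Finsupp.linearCombination_single]

lemma sdl_nil : sdl ([] : List E) = single [] 1 := rfl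

lemma sdl_eq {l : List E} (hl : l ≠ []) : sdl l = consL (bary l) (sdL (dl l)) := by
  obtain ⟨k, hk⟩ : ∃ k, l.length = k + 1 := by
    cases l with
    | nil => exact absurd rfl hl
    | cons a l => exact ⟨l.length, rfl⟩
  rw [sdl, hk, sdN]
  congr 1
  refine AllL.eq_of (dl_all l) fun l' hl' => ?_
  rw [sdL_single, one_smul, Finsupp.linearCombination_single, one_smul, sdl]
  have : l'.length = k := by omega
  rw [this]

lemma dd_sdl : (k : ℕ) → (l : List E) → l.length = k → dd (sdl l) = sdL (dl l)
  | 0, l, h => by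
    have : l = [] := List.length_eq_zero_iff.mp h
    subst this
    simp [sdl_nil, dl]
  | k + 1, l, h => by
    have hne : l ≠ [] := by rintro rfl; simp at h
    rw [sdl_eq hne, dd_consL]
    have h2 : dd (sdL (dl l)) = sdL (dd (dl l)) := by
      have := AllL.eq_of (dl_all l) (f := dd ∘ₗ sdL) (g := sdL ∘ₗ dd) fun l' hl' => by
        simp only [LinearMap.comp_apply, sdL_single, one_smul, dd_single]
        exact dd_sdl k l' (by omega)
      simpa using this
    rw [h2, dd_dl, map_zero, map_zero, sub_zero]

lemma dd_sdL (c : Ch E) : dd (sdL c) = sdL (dd c) := by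
  induction c using Finsupp.induction_linear with
  | zero => simp
  | add c₁ c₂ h₁ h₂ => simp only [map_add, h₁, h₂]
  | single l c => simp [dd_sdl _ l rfl]

lemma sdl_map (A : E →ₗ[ℝ] E) : (k : ℕ) → (l : List E) → l.length = k →
    sdl (l.map A) = chMap A (sdl l)
  | 0, l, h => by
    have : l = [] := List.length_eq_zero_iff.mp h
    subst this
    simp [sdl_nil]
  | k + 1, l, h => by
    have hne : l ≠ [] := by rintro rfl; simp at h
    have hne' : l.map A ≠ [] := by simpa using hne
    rw [sdl_eq hne', sdl_eq hne, chMap_consL, bary_map, dl_map]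
    congr 1
    have := AllL.eq_of (dl_all l) (f := sdL ∘ₗ chMap A) (g := chMap A ∘ₗ sdL) fun l' hl' => by
      simp only [LinearMap.comp_apply, chMap_single, sdL_single, one_smul]
      exact sdl_map A k l' (by omega)
    simpa using this

lemma sdL_chMap (A : E →ₗ[ℝ] E) (c : Ch E) : sdL (chMap A c) = chMap A (sdL c) := by
  induction c using Finsupp.induction_linear with
  | zero => simp
  | add c₁ c₂ h₁ h₂ => simp only [map_add, h₁, h₂]
  | single l c => simp [sdl_map A _ l rfl]

/-- iterated subdivision -/
noncomputable def sdI : ℕ → (Ch E →ₗ[ℤ] Ch E)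
  | 0 => LinearMap.id
  | r + 1 => sdL ∘ₗ sdI r

lemma dd_sdI (r : ℕ) (c : Ch E) : dd (sdI r c) = sdI r (dd c) := by
  induction r with
  | zero => rfl
  | succ r ih => simp only [sdI, LinearMap.comp_apply, dd_sdL, ih]

lemma sdI_chMap (r : ℕ) (A : E →ₗ[ℝ] E) (c : Ch E) : sdI r (chMap A c) = chMap A (sdI r c) := by
  induction r with
  | zero => rfl
  | succ r ih => simp only [sdI, LinearMap.comp_apply, ih, sdL_chMap]

lemma sdI_nil (r : ℕ) (c : ℤ) : sdI r (single ([] : List E) c) = single [] c := by
  induction r with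
  | zero => rfl
  | succ r ih => simp [sdI, LinearMap.comp_apply, ih, sdl_nil]

end Bary

section Small

variable {E : Type v} [NormedAddCommGroup E] [NormedSpace ℝ E]

omit [NormedSpace ℝ E] in
lemma sum_norm_le (D : ℝ) (x : E) (l : List E) (h : ∀ y ∈ l, dist y x ≤ D) :
    ‖(l.map (fun y => y - x)).sum‖ ≤ l.length * D := by
  induction l with
  | nil => simp
  | cons a l ih =>
    rw [List.map_cons, List.sum_cons, List.length_cons]
    have h1 := ih fun y hy => h y (List.mem_cons_of_mem _ hy)
    have h2 := h a List.mem_cons_self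
    rw [dist_eq_norm] at h2
    calc _ ≤ ‖a - x‖ + ‖(l.map (fun y => y - x)).sum‖ := norm_add_le _ _
      _ ≤ D + l.length * D := add_le_add h2 h1
      _ = _ := by push_cast; ring

lemma sum_sub (x : E) (l : List E) :
    (l.map (fun y => y - x)).sum = l.sum - (l.length : ℝ) • x := by
  induction l with
  | nil => simp
  | cons a l ih =>
    rw [List.map_cons, List.sum_cons, List.sum_cons, List.length_cons, ih]
    push_cast
    rw [add_smul, one_smul]
    abel

lemma dist_bary_le {D : ℝ} {l : List E} (hD : ∀ x ∈ l, ∀ y ∈ l, dist x y ≤ D)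
    {k : ℕ} (hk : l.length = k + 1) {x : E} (hx : x ∈ l) :
    dist x (bary l) ≤ k / (k + 1) * D := by
  obtain ⟨l₁, l₂, rfl⟩ := List.append_of_mem hx
  have hlen : l₁.length + l₂.length = k := by
    simp only [List.length_append, List.length_cons] at hk; omega
  have e : bary (l₁ ++ x :: l₂) - x = ((k : ℝ) + 1)⁻¹ • ((l₁ ++ x :: l₂).map (fun y => y - x)).sum := by
    rw [sum_sub, bary, hk, smul_sub, smul_smul]
    push_cast
    rw [inv_mul_cancel₀ (by positivity), one_smul]
  have e2 : ((l₁ ++ x :: l₂).map (fun y => y - x)).sum =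
      ((l₁ ++ l₂).map (fun y => y - x)).sum := by
    simp [List.sum_append]
  rw [dist_comm, dist_eq_norm, e, e2, norm_smul, Real.norm_of_nonneg (by positivity)]
  have h3 := sum_norm_le D x (l₁ ++ l₂) (fun y hy => by
    refine hD y ?_ x hx
    rcases List.mem_append.mp hy with h | h
    · exact List.mem_append_left _ h
    · exact List.mem_append_right _ (List.mem_cons_of_mem _ h))
  rw [List.length_append, hlen] at h3
  calc _ ≤ ((k : ℝ) + 1)⁻¹ * (k * D) := mul_le_mul_of_nonneg_left h3 (by positivity)
    _ = _ := by rw [div_eq_mul_inv]; ring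

lemma frac_mono {k N : ℕ} (h : k ≤ N) : (k : ℝ) / (k + 1) ≤ N / (N + 1) := by
  rw [div_le_div_iff₀ (by positivity) (by positivity)]
  have : (k : ℝ) ≤ N := by exact_mod_cast h
  nlinarith

lemma small_sdl {N : ℕ} {D : ℝ} (hD : 0 ≤ D) : (k : ℕ) → (l : List E) → l.length = k →
    k ≤ N + 1 → (∀ x ∈ l, ∀ y ∈ l, dist x y ≤ D) →
    AllL (fun l' => l'.length ≤ k ∧ (∀ x ∈ l', ∀ y ∈ l', dist x y ≤ N / (N + 1) * D) ∧
      ∀ x ∈ l', x ∈ convexHull ℝ {y | y ∈ l}) (sdl l)
  | 0, l, h, _, _ => by
    have : l = [] := List.length_eq_zero_iff.mp h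
    subst this
    rw [sdl_nil]
    exact AllL.single (by simp) 1
  | k + 1, l, h, hkN, hsm => by
    have hne : l ≠ [] := by rintro rfl; simp at h
    have hθ : (0 : ℝ) ≤ N / (N + 1) * D := by positivity
    rw [sdl_eq hne]
    have h1 : AllL (fun l' => l'.length ≤ k ∧ (∀ x ∈ l', ∀ y ∈ l', dist x y ≤ N / (N + 1) * D) ∧
      ∀ x ∈ l', x ∈ convexHull ℝ {y | y ∈ l}) (sdL (dl l)) := by
      refine AllL.linearCombination (dl_all l) fun l' hl' => ?_
      refine (small_sdl (N := N) hD k l' (by omega) (by omega)
        (fun x hx y hy => hsm x (hl'.2 x hx) y (hl'.2 y hy))).mono fun l'' h'' => ?_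
      refine ⟨h''.1, h''.2.1, fun x hx => ?_⟩
      exact convexHull_mono (fun y hy => hl'.2 y hy) (h''.2.2 x hx)
    refine AllL.mapDomain h1 fun l' hl' => ⟨Nat.succ_le_succ hl'.1, ?_, ?_⟩
    · have hb : ∀ y ∈ l', dist y (bary l) ≤ N / (N + 1) * D := by
        intro y hy
        have hy' := hl'.2.2 y hy
        have : convexHull ℝ {y | y ∈ l} ⊆ Metric.closedBall (bary l) (k / (k + 1) * D) := by
          refine convexHull_min (fun z hz => ?_) (convex_closedBall _ _)
          exact dist_bary_le hsm h hz
        refine (this hy').trans ?_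
        exact mul_le_mul_of_nonneg_right (frac_mono (by omega)) hD
      intro x hx y hy
      rcases List.mem_cons.mp hx with rfl | hx
      · rcases List.mem_cons.mp hy with rfl | hy
        · rw [dist_self]; exact hθ
        · rw [dist_comm]; exact hb y hy
      · rcases List.mem_cons.mp hy with rfl | hy
        · exact hb x hx
        · exact hl'.2.1 x hx y hy
    · intro x hx
      rcases List.mem_cons.mp hx with rfl | hx
      · exact bary_mem (convex_convexHull ℝ _) l hne fun x hx => subset_convexHull ℝ _ hx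
      · exact hl'.2.2 x hx

/-- small lists in a convex set -/
def SmallIn (N : ℕ) (D : ℝ) (C : Set E) (l : List E) : Prop :=
  l.length ≤ N + 1 ∧ (∀ x ∈ l, ∀ y ∈ l, dist x y ≤ D) ∧ ∀ x ∈ l, x ∈ C

lemma small_sdI {N : ℕ} {D : ℝ} (hD : 0 ≤ D) {C : Set E} (hC : Convex ℝ C) (r : ℕ)
    {l : List E} (hl : SmallIn N D C l) :
    AllL (SmallIn N ((N / (N + 1)) ^ r * D) C) (sdI r (single l 1)) := by
  induction r with
  | zero =>
    refine AllL.single ?_ 1
    simpa using hl
  | succ r ih =>
    rw [sdI, LinearMap.comp_apply]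
    refine AllL.linearCombination ih fun l' hl' => ?_
    refine (small_sdl (N := N) (by positivity) _ l' rfl hl'.1 hl'.2.1).mono fun l'' h'' => ?_
    refine ⟨h''.1.trans hl'.1, fun x hx y hy => ?_, fun x hx => ?_⟩
    · refine (h''.2.1 x hx y hy).trans (le_of_eq ?_)
      rw [pow_succ]; ring
    · exact convexHull_min (fun y hy => hl'.2.2 y hy) hC (h''.2.2 x hx)

end Small

end Pool.Agent.Helper73_CrossIndex
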